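import Mathlib
import Pool.Agent.TH751.TheonDefs

/-!
# Theons over an arbitrary finite relational language
-/

set_option autoImplicit false

open FirstOrder MeasureTheory Set
open Pool.Agent.TH751.Theon (EV pull diag sing NESub)

namespace Pool.Agent.T6helper6.BT

/-- A family of sets `𝓝_P ⊆ 𝓔_{k(P)}`, one for each predicate symbol `P`. -/
abbrev EStr (L : FirstOrder.Language.{0, 0}) : Type := ∀ k : ℕ, L.Relations k → Set (EV (Fin k))

/-- `T_ind(M, 𝓝)` for a structure `M` with vertex set `V`. -/
def Tind {L : FirstOrder.Language.{0, 0}} {V : Type} (M : L.Structure V) (N : EStr L) : Set (EV V) :=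
  {x | ∀ (k : ℕ) (P : L.Relations k) (α : Fin k ↪ V), pull α x ∈ N k P ↔ M.RelMap P α}

/-- A structure is canonical if its predicates are false on tuples with a repeated entry. -/
def IsCanonical {L : FirstOrder.Language.{0, 0}} {V : Type} (M : L.Structure V) : Prop :=
  ∀ (k : ℕ) (P : L.Relations k) (v : Fin k → V), M.RelMap P v → Function.Injective v

/-- A theory is canonical if all its models are canonical. -/
def CanonicalTheory {L : FirstOrder.Language.{0, 0}} (T : L.Theory) : Prop :=
  ∀ (V : Type) (M : L.Structure V), @FirstOrder.Language.Theory.Model L V M T → IsCanonical M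

/-- `𝓝` (measurability is required separately) is a strong `T`-on: `T_ind(M, 𝓝) ⊆ 𝓓_V` for each
finite canonical structure `M` that is not a model of `T`. -/
def StrongOn {L : FirstOrder.Language.{0, 0}} (T : L.Theory) (N : EStr L) : Prop :=
  ∀ (V : Type) [Finite V] (M : L.Structure V), IsCanonical M →
    ¬ @FirstOrder.Language.Theory.Model L V M T → Tind M N ⊆ diag V

/-- The structure on `V` given by a point of `𝓔_V`. -/
@[instance_reducible] def rel {L : FirstOrder.Language.{0, 0}} [L.IsRelational] (N : EStr L) {V : Type} (x : EV V) :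
    L.Structure V where
  funMap := fun f => isEmptyElim f
  RelMap := fun {k} P v => ∃ h : Function.Injective v, pull ⟨v, h⟩ x ∈ N k P

/-- The universal sentences which hold in all finite pieces of `𝓝`. -/
def theoryOf {L : FirstOrder.Language.{0, 0}} [L.IsRelational] (N : EStr L) : L.Theory :=
  {φ | φ.IsUniversal ∧ ∀ (V : Type) [Finite V] (x : EV V), x ∉ diag V →
    @FirstOrder.Language.Sentence.Realize L V (rel N x) φ}

end Pool.Agent.T6helper6.BT
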