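import Pool.Agent.T6helper6.BT.K

/-!
# The structure on the 3-adic integers and its universal properties
-/

set_option autoImplicit false

namespace Pool.Agent.T6helper6.BT

/-- `y - x - g` is at least as small as `y₀ - x₀ - g₀`, for `t = (x₀, g₀, y₀, x, g, y)`. -/
def Ls (t : Fin 6 → ℤ_[3]) : Prop := ‖t 5 - t 3 - t 4‖ ≤ ‖t 2 - t 0 - t 1‖

/-- `y - x` belongs to the lower half at the scale given by `y₀ - x₀ - g₀`,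
for `t = (x₀, g₀, y₀, x, y)`. -/
def Qs (t : Fin 5 → ℤ_[3]) : Prop := K (t 2 - t 0 - t 1) (t 4 - t 3)

/-- Every finite piece of the structure given by `Lv`, `Qv` looks like a finite piece of the
structure given by `Ls`, `Qs`. -/
def Forced (Lv : (Fin 6 → ℤ_[3]) → Prop) (Qv : (Fin 5 → ℤ_[3]) → Prop) : Prop :=
  ∀ (m : ℕ) (γ : Fin m → ℤ_[3]), Function.Injective γ → ∃ δ : Fin m → ℤ_[3],
    Function.Injective δ ∧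
    (∀ α : Fin 6 → Fin m, Function.Injective α → (Lv (γ ∘ α) ↔ Ls (δ ∘ α))) ∧
    (∀ α : Fin 5 → Fin m, Function.Injective α → (Qv (γ ∘ α) ↔ Qs (δ ∘ α)))

variable {Lv : (Fin 6 → ℤ_[3]) → Prop} {Qv : (Fin 5 → ℤ_[3]) → Prop}

theorem forced_iff (h : Forced Lv Qv) {m : ℕ} {γ : Fin m → ℤ_[3]} (hγ : Function.Injective γ) :
    ∃ δ : Fin m → ℤ_[3], Function.Injective δ ∧
      (∀ a b c d e f : Fin m, Function.Injective ![a, b, c, d, e, f] →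
        (Lv ![γ a, γ b, γ c, γ d, γ e, γ f] ↔ ‖δ f - δ d - δ e‖ ≤ ‖δ c - δ a - δ b‖)) ∧
      (∀ a b c d e : Fin m, Function.Injective ![a, b, c, d, e] →
        (Qv ![γ a, γ b, γ c, γ d, γ e] ↔ K (δ c - δ a - δ b) (δ e - δ d))) := by
  obtain ⟨δ, h1, h2, h3⟩ := h m γ hγ
  refine ⟨δ, h1, fun a b c d e f hi => ?_, fun a b c d e hi => ?_⟩
  · have h4 := h2 _ hi
    have h5 : γ ∘ ![a, b, c, d, e, f] = ![γ a, γ b, γ c, γ d, γ e, γ f] := by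
      funext i; fin_cases i <;> rfl
    rw [h5] at h4
    exact h4
  · have h4 := h3 _ hi
    have h5 : γ ∘ ![a, b, c, d, e] = ![γ a, γ b, γ c, γ d, γ e] := by
      funext i; fin_cases i <;> rfl
    rw [h5] at h4
    exact h4

section
variable (h : Forced Lv Qv)
include h

theorem ax_tot {γ : Fin 6 → ℤ_[3]} (hγ : Function.Injective γ) :
    Lv ![γ 0, γ 1, γ 2, γ 3, γ 4, γ 5] ∨ Lv ![γ 3, γ 4, γ 5, γ 0, γ 1, γ 2] := by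
  obtain ⟨δ, -, hL, -⟩ := forced_iff h hγ
  rw [hL _ _ _ _ _ _ (by decide), hL _ _ _ _ _ _ (by decide)]
  exact le_total _ _

theorem ax_trans {γ : Fin 9 → ℤ_[3]} (hγ : Function.Injective γ)
    (h1 : Lv ![γ 3, γ 4, γ 5, γ 0, γ 1, γ 2]) (h2 : Lv ![γ 0, γ 1, γ 2, γ 6, γ 7, γ 8]) :
    Lv ![γ 3, γ 4, γ 5, γ 6, γ 7, γ 8] := by
  obtain ⟨δ, -, hL, -⟩ := forced_iff h hγ
  rw [hL _ _ _ _ _ _ (by decide)] at h1 h2 ⊢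
  exact h2.trans h1

theorem ax_anti {γ : Fin 5 → ℤ_[3]} (hγ : Function.Injective γ) :
    ¬ (Qv ![γ 0, γ 1, γ 2, γ 3, γ 4] ∧ Qv ![γ 0, γ 1, γ 2, γ 4, γ 3]) := by
  obtain ⟨δ, -, -, hQ⟩ := forced_iff h hγ
  rw [hQ _ _ _ _ _ (by decide), hQ _ _ _ _ _ (by decide)]
  rw [← neg_sub (δ 4) (δ 3)]
  exact K_not_both _ _

/-- `3, 4, 5` are dominated by `6` -/
theorem ax_out {γ : Fin 7 → ℤ_[3]} (hγ : Function.Injective γ)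
    (h1 : Qv ![γ 0, γ 1, γ 2, γ 6, γ 3]) (h2 : Qv ![γ 0, γ 1, γ 2, γ 6, γ 4])
    (h3 : Qv ![γ 0, γ 1, γ 2, γ 6, γ 5]) :
    ¬ ((Qv ![γ 0, γ 1, γ 2, γ 3, γ 4] ∧ Qv ![γ 0, γ 1, γ 2, γ 4, γ 5] ∧
        Qv ![γ 0, γ 1, γ 2, γ 5, γ 3]) ∨
      (Qv ![γ 0, γ 1, γ 2, γ 4, γ 3] ∧ Qv ![γ 0, γ 1, γ 2, γ 5, γ 4] ∧
        Qv ![γ 0, γ 1, γ 2, γ 3, γ 5])) := by
  obtain ⟨δ, -, -, hQ⟩ := forced_iff h hγ
  rw [hQ _ _ _ _ _ (by decide)] at h1 h2 h3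
  rw [hQ _ _ _ _ _ (by decide), hQ _ _ _ _ _ (by decide), hQ _ _ _ _ _ (by decide),
    hQ _ _ _ _ _ (by decide), hQ _ _ _ _ _ (by decide), hQ _ _ _ _ _ (by decide)]
  rintro (⟨a, b, c⟩ | ⟨a, b, c⟩)
  · refine K_cyc h1 h2 h3 ⟨?_, ?_, ?_⟩
    · rwa [sub_sub_sub_cancel_right]
    · rwa [sub_sub_sub_cancel_right]
    · rwa [sub_sub_sub_cancel_right]
  · refine K_cyc h1 h3 h2 ⟨?_, ?_, ?_⟩
    · rwa [sub_sub_sub_cancel_right]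
    · rwa [sub_sub_sub_cancel_right]
    · rwa [sub_sub_sub_cancel_right]

theorem ax_in {γ : Fin 7 → ℤ_[3]} (hγ : Function.Injective γ)
    (h1 : Qv ![γ 0, γ 1, γ 2, γ 3, γ 6]) (h2 : Qv ![γ 0, γ 1, γ 2, γ 4, γ 6])
    (h3 : Qv ![γ 0, γ 1, γ 2, γ 5, γ 6]) :
    ¬ ((Qv ![γ 0, γ 1, γ 2, γ 3, γ 4] ∧ Qv ![γ 0, γ 1, γ 2, γ 4, γ 5] ∧
        Qv ![γ 0, γ 1, γ 2, γ 5, γ 3]) ∨
      (Qv ![γ 0, γ 1, γ 2, γ 4, γ 3] ∧ Qv ![γ 0, γ 1, γ 2, γ 5, γ 4] ∧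
        Qv ![γ 0, γ 1, γ 2, γ 3, γ 5])) := by
  obtain ⟨δ, -, -, hQ⟩ := forced_iff h hγ
  rw [hQ _ _ _ _ _ (by decide)] at h1 h2 h3
  rw [hQ _ _ _ _ _ (by decide), hQ _ _ _ _ _ (by decide), hQ _ _ _ _ _ (by decide),
    hQ _ _ _ _ _ (by decide), hQ _ _ _ _ _ (by decide), hQ _ _ _ _ _ (by decide)]
  rw [← neg_sub (δ 3) (δ 6)] at h1
  rw [← neg_sub (δ 4) (δ 6)] at h2
  rw [← neg_sub (δ 5) (δ 6)] at h3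
  rintro (⟨a, b, c⟩ | ⟨a, b, c⟩)
  · refine K_cyc' h1 h2 h3 ⟨?_, ?_, ?_⟩
    · rwa [sub_sub_sub_cancel_right]
    · rwa [sub_sub_sub_cancel_right]
    · rwa [sub_sub_sub_cancel_right]
  · refine K_cyc' h1 h3 h2 ⟨?_, ?_, ?_⟩
    · rwa [sub_sub_sub_cancel_right]
    · rwa [sub_sub_sub_cancel_right]
    · rwa [sub_sub_sub_cancel_right]

/-- `γ = (x₀, g₀, y₀, x, w, g, x', w')` -/
theorem ax_inv {γ : Fin 8 → ℤ_[3]} (hγ : Function.Injective γ)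
    (h1 : Lv ![γ 0, γ 1, γ 2, γ 3, γ 5, γ 6]) (h2 : Lv ![γ 0, γ 1, γ 2, γ 4, γ 5, γ 7]) :
    Qv ![γ 0, γ 1, γ 2, γ 3, γ 4] ↔ Qv ![γ 0, γ 1, γ 2, γ 6, γ 7] := by
  obtain ⟨δ, -, hL, hQ⟩ := forced_iff h hγ
  rw [hL _ _ _ _ _ _ (by decide)] at h1 h2
  rw [hQ _ _ _ _ _ (by decide), hQ _ _ _ _ _ (by decide)]
  refine K_congr ?_
  have h3 : δ 4 - δ 3 - (δ 7 - δ 6) = (δ 6 - δ 3 - δ 5) + -(δ 7 - δ 4 - δ 5) := by ring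
  rw [h3]
  refine (PadicInt.nonarchimedean _ _).trans (max_le h1 ?_)
  rwa [norm_neg]

/-- `γ = (f₁, f₂, f₃, x₀, g₀, w, y₀)` -/
theorem ax_force1 {γ : Fin 7 → ℤ_[3]} (hγ : Function.Injective γ)
    (h1 : Lv ![γ 0, γ 1, γ 2, γ 3, γ 4, γ 5])
    (h2 : ¬ (Qv ![γ 0, γ 1, γ 2, γ 5, γ 6] ∨ Qv ![γ 0, γ 1, γ 2, γ 6, γ 5])) :
    Lv ![γ 0, γ 1, γ 2, γ 3, γ 4, γ 6] := by
  obtain ⟨δ, -, hL, hQ⟩ := forced_iff h hγ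
  rw [hL _ _ _ _ _ _ (by decide)] at h1 ⊢
  rw [hQ _ _ _ _ _ (by decide), hQ _ _ _ _ _ (by decide), ← neg_sub (δ 6) (δ 5), K_or_iff,
    not_lt] at h2
  have h3 : δ 6 - δ 3 - δ 4 = (δ 6 - δ 5) + (δ 5 - δ 3 - δ 4) := by ring
  rw [h3]
  exact (PadicInt.nonarchimedean _ _).trans (max_le h2 h1)

/-- `γ = (f₁, f₂, f₃, x₀, g₀, y₀, x, y)` -/
theorem ax_force2 {γ : Fin 8 → ℤ_[3]} (hγ : Function.Injective γ)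
    (h1 : Lv ![γ 0, γ 1, γ 2, γ 3, γ 4, γ 5])
    (h2 : Qv ![γ 0, γ 1, γ 2, γ 6, γ 7] ∨ Qv ![γ 0, γ 1, γ 2, γ 7, γ 6]) :
    Qv ![γ 3, γ 4, γ 5, γ 6, γ 7] ∨ Qv ![γ 3, γ 4, γ 5, γ 7, γ 6] := by
  obtain ⟨δ, -, hL, hQ⟩ := forced_iff h hγ
  rw [hL _ _ _ _ _ _ (by decide)] at h1
  rw [hQ _ _ _ _ _ (by decide), hQ _ _ _ _ _ (by decide), ← neg_sub (δ 7) (δ 6), K_or_iff]
    at h2 ⊢
  exact h1.trans_lt h2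

end

end Pool.Agent.T6helper6.BT
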