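import Mathlib

/-!
# No measurable tournament on a compact group is locally transitive and almost invariant
-/

set_option autoImplicit false
set_option linter.unusedSectionVars false

open MeasureTheory ENNReal

namespace Pool.Agent.T6helper6.BT

section Swap

variable {G : Type} [MeasurableSpace G] {μ : Measure G} [SFinite μ]

theorem swap12 {f : G → G → G → ℝ≥0∞} (hf : Measurable fun p : G × G × G => f p.1 p.2.1 p.2.2) :
    ∫⁻ x, ∫⁻ y, ∫⁻ w, f x y w ∂μ ∂μ ∂μ = ∫⁻ x, ∫⁻ y, ∫⁻ w, f y x w ∂μ ∂μ ∂μ := by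
  have h : Measurable fun p : G × G => ∫⁻ w, f p.1 p.2 w ∂μ := by
    refine Measurable.lintegral_prod_right' (f := fun q : (G × G) × G => f q.1.1 q.1.2 q.2) ?_
    exact hf.comp (by fun_prop : Measurable fun q : (G × G) × G => (q.1.1, q.1.2, q.2))
  exact lintegral_lintegral_swap h.aemeasurable

theorem swap23 {f : G → G → G → ℝ≥0∞} (hf : Measurable fun p : G × G × G => f p.1 p.2.1 p.2.2) :
    ∫⁻ x, ∫⁻ y, ∫⁻ w, f x y w ∂μ ∂μ ∂μ = ∫⁻ x, ∫⁻ y, ∫⁻ w, f x w y ∂μ ∂μ ∂μ := by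
  refine lintegral_congr fun x => ?_
  exact lintegral_lintegral_swap
    (hf.comp (by fun_prop : Measurable fun q : G × G => (x, q.1, q.2))).aemeasurable

theorem swap13 {f : G → G → G → ℝ≥0∞} (hf : Measurable fun p : G × G × G => f p.1 p.2.1 p.2.2) :
    ∫⁻ x, ∫⁻ y, ∫⁻ w, f x y w ∂μ ∂μ ∂μ = ∫⁻ x, ∫⁻ y, ∫⁻ w, f w y x ∂μ ∂μ ∂μ := by
  rw [swap12 hf, swap23 (f := fun x y w => f y x w), swap12 (f := fun x y w => f w x y)]
  · exact hf.comp (by fun_prop : Measurable fun p : G × G × G => (p.2.2, p.1, p.2.1))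
  · exact hf.comp (by fun_prop : Measurable fun p : G × G × G => (p.2.1, p.1, p.2.2))

theorem lintegral3_mono_ae {f g : G → G → G → ℝ≥0∞}
    (h : ∀ᵐ x ∂μ, ∀ᵐ y ∂μ, ∀ᵐ w ∂μ, f x y w ≤ g x y w) :
    ∫⁻ x, ∫⁻ y, ∫⁻ w, f x y w ∂μ ∂μ ∂μ ≤ ∫⁻ x, ∫⁻ y, ∫⁻ w, g x y w ∂μ ∂μ ∂μ :=
  lintegral_mono_ae (h.mono fun _ hx => lintegral_mono_ae (hx.mono fun _ hy =>
    lintegral_mono_ae hy))

theorem lintegral4_mono_ae {f g : G → G → G → G → ℝ≥0∞}
    (h : ∀ᵐ x ∂μ, ∀ᵐ y ∂μ, ∀ᵐ w ∂μ, ∀ᵐ z ∂μ, f x y w z ≤ g x y w z) :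
    ∫⁻ x, ∫⁻ y, ∫⁻ w, ∫⁻ z, f x y w z ∂μ ∂μ ∂μ ∂μ ≤
      ∫⁻ x, ∫⁻ y, ∫⁻ w, ∫⁻ z, g x y w z ∂μ ∂μ ∂μ ∂μ :=
  lintegral3_mono_ae (h.mono fun _ hx => hx.mono fun _ hy => hy.mono fun _ hz =>
    lintegral_mono_ae hz)

end Swap

/-- indicator of a statement -/
noncomputable def ind (P : Prop) : ℝ≥0∞ := open Classical in if P then 1 else 0

theorem ind_of {P : Prop} (h : P) : ind P = 1 := by simp [ind, h]
theorem ind_not {P : Prop} (h : ¬ P) : ind P = 0 := by simp [ind, h]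
theorem ind_congr {P Q : Prop} (h : P ↔ Q) : ind P = ind Q := by rw [propext h]

theorem measurable_ind {X : Type} [MeasurableSpace X] {P : X → Prop}
    (h : MeasurableSet {x | P x}) : Measurable fun x => ind (P x) := by
  classical
  unfold ind
  exact Measurable.ite h measurable_const measurable_const

section Core

variable {G : Type} [AddCommGroup G] [MeasurableSpace G] [MeasurableAdd₂ G] [MeasurableNeg G]
  {μ : Measure G} [IsProbabilityMeasure μ] [μ.IsAddLeftInvariant]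

variable (V : AddSubgroup G)

theorem r_comm (x y : G) : (y - x ∈ V) ↔ (x - y ∈ V) := by
  rw [← neg_mem_iff, neg_sub]

theorem lintegral_r (hV : MeasurableSet (V : Set G)) (x : G) :
    ∫⁻ y, ind (y - x ∈ V) ∂μ = μ V := by
  have h1 : ∫⁻ y, ind (y - x ∈ V) ∂μ = ∫⁻ y, ind (y ∈ V) ∂μ := by
    have := lintegral_add_right_eq_self (μ := μ) (fun y => ind (y ∈ V)) (-x)
    simpa [sub_eq_add_neg] using this
  rw [h1]
  classical
  have h2 : (fun y => ind (y ∈ V)) = (V : Set G).indicator (fun _ => 1) := by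
    funext y
    by_cases h : y ∈ V
    · rw [ind_of h, Set.indicator_of_mem (by exact h)]
    · rw [ind_not h, Set.indicator_of_notMem (by exact h)]
  rw [h2, lintegral_indicator hV]
  simp

theorem lintegral_r' (hV : MeasurableSet (V : Set G)) (y : G) :
    ∫⁻ x, ind (y - x ∈ V) ∂μ = μ V := by
  rw [← lintegral_r V hV y]
  exact lintegral_congr fun x => ind_congr (r_comm V x y)


theorem measurable_r (hV : MeasurableSet (V : Set G)) :
    Measurable fun p : G × G => ind (p.2 - p.1 ∈ V) :=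
  measurable_ind (P := fun p : G × G => p.2 - p.1 ∈ V)
    ((measurable_snd.sub measurable_fst) hV)

theorem r_mul_comm (x y w : G) :
    ind (x - y ∈ V) * ind (w - y ∈ V) = ind (y - x ∈ V) * ind (w - x ∈ V) := by
  by_cases h : y - x ∈ V
  · have h' : x - y ∈ V := (r_comm V x y).1 h
    rw [ind_of h, ind_of h', one_mul, one_mul]
    refine ind_congr ⟨fun h2 => ?_, fun h2 => ?_⟩
    · have := V.add_mem h2 h; rwa [sub_add_sub_cancel] at this
    · have := V.add_mem h2 h'; rwa [sub_add_sub_cancel] at this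
  · have h' : ¬ x - y ∈ V := fun h2 => h ((r_comm V x y).2 h2)
    rw [ind_not h, ind_not h', zero_mul, zero_mul]

variable {V} {Q act : G → G → Prop}

/-- the mass of the pairs in one coset -/
theorem mass3 (hV : MeasurableSet (V : Set G)) :
    ∫⁻ x, ∫⁻ y, ∫⁻ w, ind (y - x ∈ V) * ind (w - x ∈ V) ∂μ ∂μ ∂μ = μ V * μ V := by
  have h1 : ∀ x y : G, ∫⁻ w, ind (y - x ∈ V) * ind (w - x ∈ V) ∂μ = ind (y - x ∈ V) * μ V := by
    intro x y
    rw [lintegral_const_mul, lintegral_r V hV]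
    exact (measurable_r V hV).comp (measurable_prodMk_left (x := x))
  simp only [h1]
  have h2 : ∀ x : G, ∫⁻ y, ind (y - x ∈ V) * μ V ∂μ = μ V * μ V := by
    intro x
    rw [lintegral_mul_const, lintegral_r V hV]
    exact (measurable_r V hV).comp (measurable_prodMk_left (x := x))
  simp only [h2]
  simp

/-- the mass of the triples in which the first vertex dominates the others -/
noncomputable def P1 (μ : Measure G) (V : AddSubgroup G) (Q : G → G → Prop) : ℝ≥0∞ :=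
  ∫⁻ x, ∫⁻ y, ∫⁻ w, ind (y - x ∈ V) * ind (w - x ∈ V) * (ind (Q x y) * ind (Q x w)) ∂μ ∂μ ∂μ

/-- the mass of the pairs -/
noncomputable def H1 (μ : Measure G) (V : AddSubgroup G) (Q : G → G → Prop) : ℝ≥0∞ :=
  ∫⁻ x, ∫⁻ y, ind (y - x ∈ V) * ind (Q x y) ∂μ ∂μ

theorem measurable_q (hQ : MeasurableSet {p : G × G | Q p.1 p.2}) :
    Measurable fun p : G × G => ind (Q p.1 p.2) := measurable_ind hQ

theorem H1_le (hV : MeasurableSet (V : Set G)) (hQ : MeasurableSet {p : G × G | Q p.1 p.2})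
    (hanti : ∀ᵐ x ∂μ, ∀ᵐ y ∂μ, ¬ (Q x y ∧ Q y x)) : 2 * H1 μ V Q ≤ μ V := by
  have hr := measurable_r V hV
  have hq := measurable_q hQ
  have h1 : H1 μ V Q = ∫⁻ x, ∫⁻ y, ind (y - x ∈ V) * ind (Q y x) ∂μ ∂μ := by
    unfold H1
    rw [lintegral_lintegral_swap]
    · refine lintegral_congr fun x => lintegral_congr fun y => ?_
      rw [ind_congr (r_comm V y x)]
    · exact (hr.mul hq).aemeasurable
  rw [two_mul]
  conv_lhs => enter [2]; rw [h1]
  unfold H1
  rw [← lintegral_add_left]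
  · have h2 : ∀ x : G, ∫⁻ y, ind (y - x ∈ V) * ind (Q x y) ∂μ +
        ∫⁻ y, ind (y - x ∈ V) * ind (Q y x) ∂μ =
        ∫⁻ y, (ind (y - x ∈ V) * ind (Q x y) + ind (y - x ∈ V) * ind (Q y x)) ∂μ := by
      intro x
      rw [lintegral_add_left]
      exact (hr.mul hq).comp (measurable_prodMk_left (x := x))
    simp only [h2]
    calc _ ≤ ∫⁻ x, ∫⁻ y, ind (y - x ∈ V) ∂μ ∂μ := by
          refine lintegral_mono_ae (hanti.mono fun x hx => lintegral_mono_ae (hx.mono fun y hy => ?_))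
          rw [← mul_add]
          calc ind (y - x ∈ V) * (ind (Q x y) + ind (Q y x)) ≤ ind (y - x ∈ V) * 1 := by
                gcongr
                by_cases h3 : Q x y
                · have h4 : ¬ Q y x := fun h4 => hy ⟨h3, h4⟩
                  rw [ind_of h3, ind_not h4, add_zero]
                · rw [ind_not h3, zero_add]
                  unfold ind
                  split_ifs <;> simp
            _ = _ := mul_one _
      _ = μ V := by
          simp only [lintegral_r V hV]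
          simp
  · exact Measurable.lintegral_prod_right' (f := fun p : G × G => ind (p.2 - p.1 ∈ V) *
      ind (Q p.1 p.2)) (hr.mul hq)


theorem ind_le_one (P : Prop) : ind P ≤ 1 := by
  unfold ind; split_ifs <;> simp

theorem P1_le (hV : MeasurableSet (V : Set G)) (hQ : MeasurableSet {p : G × G | Q p.1 p.2})
    (hact : MeasurableSet {p : G × G | act p.1 p.2})
    (hinv : ∀ᵐ x ∂μ, ∀ᵐ w ∂μ, ∀ᵐ g ∂μ, act x g → act w g → (Q x w ↔ Q (x + g) (w + g)))
    {ε : ℝ≥0∞} (hε : ∫⁻ x, ∫⁻ g, ind (¬ act x g) ∂μ ∂μ ≤ ε) :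
    P1 μ V Q ≤ H1 μ V Q * H1 μ V Q + 2 * ε * (μ V * μ V) := by
  have hr := measurable_r V hV
  have hq := measurable_q hQ
  have ha : Measurable fun p : G × G => ind (¬ act p.1 p.2) := measurable_ind hact.compl
  set r : G → G → ℝ≥0∞ := fun x y => ind (y - x ∈ V) with hrdef
  set q : G → G → ℝ≥0∞ := fun x y => ind (Q x y) with hqdef
  set a : G → G → ℝ≥0∞ := fun x g => ind (¬ act x g) with hadef
  have hrx : ∀ {X : Type} [MeasurableSpace X] {f g : X → G}, Measurable f → Measurable g →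
      Measurable fun t => r (f t) (g t) := fun hf hg => hr.comp (hf.prodMk hg)
  have hqx : ∀ {X : Type} [MeasurableSpace X] {f g : X → G}, Measurable f → Measurable g →
      Measurable fun t => q (f t) (g t) := fun hf hg => hq.comp (hf.prodMk hg)
  have hax : ∀ {X : Type} [MeasurableSpace X] {f g : X → G}, Measurable f → Measurable g →
      Measurable fun t => a (f t) (g t) := fun hf hg => ha.comp (hf.prodMk hg)
  -- a dummy variable
  have e1 : P1 μ V Q = ∫⁻ x, ∫⁻ y, ∫⁻ w, ∫⁻ _, r x y * r x w * (q x y * q x w)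
      ∂μ ∂μ ∂μ ∂μ := by
    unfold P1
    simp only [lintegral_const, measure_univ, mul_one]
    rfl
  have e2 : P1 μ V Q ≤ ∫⁻ x, ∫⁻ y, ∫⁻ w, ∫⁻ g, (r x y * q x y * (r x w * q (x + g) (w + g)) +
      (r x y * r x w * a x g + r x y * r x w * a w g)) ∂μ ∂μ ∂μ ∂μ := by
    rw [e1]
    refine lintegral4_mono_ae (hinv.mono fun x hx => ?_)
    refine Filter.Eventually.of_forall fun y => ?_
    filter_upwards [hx] with w hw
    filter_upwards [hw] with g hg
    have h1 : q x w ≤ q (x + g) (w + g) + (a x g + a w g) := by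
      by_cases h2 : act x g
      · by_cases h3 : act w g
        · have : q x w = q (x + g) (w + g) := ind_congr (hg h2 h3)
          rw [this]
          exact le_self_add
        · have : a w g = 1 := ind_of h3
          rw [this, ← add_assoc]
          exact (ind_le_one _).trans le_add_self
      · have : a x g = 1 := ind_of h2
        rw [this]
        exact (ind_le_one _).trans (le_self_add.trans le_add_self)
    calc r x y * r x w * (q x y * q x w)
        ≤ r x y * r x w * (q x y * (q (x + g) (w + g) + (a x g + a w g))) := by gcongr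
      _ = r x y * q x y * (r x w * q (x + g) (w + g)) +
          q x y * (r x y * r x w * (a x g + a w g)) := by ring
      _ ≤ r x y * q x y * (r x w * q (x + g) (w + g)) +
          1 * (r x y * r x w * (a x g + a w g)) := by
          gcongr
          exact ind_le_one _
      _ = _ := by ring
  refine e2.trans ?_
  -- the first term
  have f1 : ∀ x : G, ∫⁻ w, ∫⁻ g, r x w * q (x + g) (w + g) ∂μ ∂μ = H1 μ V Q := by
    intro x
    have h0 : ∀ w g : G, r x w * q (x + g) (w + g) = r (x + g) (w + g) * q (x + g) (w + g) := by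
      intro w g
      have : r x w = r (x + g) (w + g) := by
        simp only [hrdef]
        rw [add_sub_add_right_eq_sub]
      rw [this]
    simp only [h0]
    rw [lintegral_lintegral_swap]
    · have h1 : ∀ g : G, ∫⁻ w, r (x + g) (w + g) * q (x + g) (w + g) ∂μ =
          ∫⁻ w, r (x + g) w * q (x + g) w ∂μ := by
        intro g
        exact lintegral_add_right_eq_self (μ := μ) (fun w => r (x + g) w * q (x + g) w) g
      simp only [h1]
      exact lintegral_add_left_eq_self (μ := μ) (fun x' => ∫⁻ w, r x' w * q x' w ∂μ) x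
    · exact ((hrx (by fun_prop) (by fun_prop)).mul (hqx (by fun_prop) (by fun_prop))).aemeasurable
  have hcw : ∀ x : G, ∫⁻ w, r x w ∂μ = μ V := fun x => lintegral_r V hV x
  have hcw' : ∀ x : G, ∫⁻ w, r w x ∂μ = μ V := fun x => lintegral_r' V hV x
  have m1 : Measurable fun p : G × G × G × G => r p.1 p.2.1 * q p.1 p.2.1 *
      (r p.1 p.2.2.1 * q (p.1 + p.2.2.2) (p.2.2.1 + p.2.2.2)) := by
    refine ((hrx (by fun_prop) (by fun_prop)).mul (hqx (by fun_prop) (by fun_prop))).mul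
      ((hrx (by fun_prop) (by fun_prop)).mul (hqx (by fun_prop) (by fun_prop)))
  have m2 : Measurable fun p : G × G × G × G => r p.1 p.2.1 * r p.1 p.2.2.1 * a p.1 p.2.2.2 := by
    exact ((hrx (by fun_prop) (by fun_prop)).mul (hrx (by fun_prop) (by fun_prop))).mul
      (hax (by fun_prop) (by fun_prop))
  have m3 : Measurable fun p : G × G × G × G => r p.1 p.2.1 * r p.1 p.2.2.1 *
      a p.2.2.1 p.2.2.2 := by
    exact ((hrx (by fun_prop) (by fun_prop)).mul (hrx (by fun_prop) (by fun_prop))).mul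
      (hax (by fun_prop) (by fun_prop))
  -- splitting of the integral of a sum
  have split : ∀ f g : G → G → G → G → ℝ≥0∞,
      Measurable (fun p : G × G × G × G => f p.1 p.2.1 p.2.2.1 p.2.2.2) →
      ∫⁻ x, ∫⁻ y, ∫⁻ w, ∫⁻ z, (f x y w z + g x y w z) ∂μ ∂μ ∂μ ∂μ =
      ∫⁻ x, ∫⁻ y, ∫⁻ w, ∫⁻ z, f x y w z ∂μ ∂μ ∂μ ∂μ +
        ∫⁻ x, ∫⁻ y, ∫⁻ w, ∫⁻ z, g x y w z ∂μ ∂μ ∂μ ∂μ := by
    intro f g hf
    have k1 : Measurable fun p : G × G × G => ∫⁻ z, f p.1 p.2.1 p.2.2 z ∂μ := by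
      refine Measurable.lintegral_prod_right'
        (f := fun q : (G × G × G) × G => f q.1.1 q.1.2.1 q.1.2.2 q.2) ?_
      exact hf.comp (by fun_prop :
        Measurable fun q : (G × G × G) × G => (q.1.1, q.1.2.1, q.1.2.2, q.2))
    have k2 : Measurable fun p : G × G => ∫⁻ w, ∫⁻ z, f p.1 p.2 w z ∂μ ∂μ := by
      refine Measurable.lintegral_prod_right'
        (f := fun q : (G × G) × G => ∫⁻ z, f q.1.1 q.1.2 q.2 z ∂μ) ?_
      exact k1.comp (by fun_prop : Measurable fun q : (G × G) × G => (q.1.1, q.1.2, q.2))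
    have k3 : Measurable fun x : G => ∫⁻ y, ∫⁻ w, ∫⁻ z, f x y w z ∂μ ∂μ ∂μ :=
      Measurable.lintegral_prod_right'
        (f := fun q : G × G => ∫⁻ w, ∫⁻ z, f q.1 q.2 w z ∂μ ∂μ) k2
    rw [← lintegral_add_left k3]
    refine lintegral_congr fun x => ?_
    have k2x : Measurable fun y : G => ∫⁻ w, ∫⁻ z, f x y w z ∂μ ∂μ :=
      k2.comp (measurable_prodMk_left (x := x))
    rw [← lintegral_add_left k2x]
    refine lintegral_congr fun y => ?_
    have k1x : Measurable fun w : G => ∫⁻ z, f x y w z ∂μ :=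
      k1.comp (by fun_prop : Measurable fun w : G => (x, y, w))
    rw [← lintegral_add_left k1x]
    refine lintegral_congr fun w => ?_
    have k0x : Measurable fun z : G => f x y w z :=
      hf.comp (by fun_prop : Measurable fun z : G => (x, y, w, z))
    rw [← lintegral_add_left k0x]
  rw [split _ _ m1, split _ _ m2]
  have t1 : ∫⁻ x, ∫⁻ y, ∫⁻ w, ∫⁻ g, r x y * q x y * (r x w * q (x + g) (w + g)) ∂μ ∂μ ∂μ ∂μ =
      H1 μ V Q * H1 μ V Q := by
    have h1 : ∀ x y : G, ∫⁻ w, ∫⁻ g, r x y * q x y * (r x w * q (x + g) (w + g)) ∂μ ∂μ =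
        r x y * q x y * H1 μ V Q := by
      intro x y
      rw [← f1 x]
      have h2 : ∀ w : G, ∫⁻ g, r x y * q x y * (r x w * q (x + g) (w + g)) ∂μ =
          r x y * q x y * ∫⁻ g, r x w * q (x + g) (w + g) ∂μ := by
        intro w
        rw [lintegral_const_mul]
        exact (measurable_const).mul (hqx (by fun_prop) (by fun_prop))
      simp only [h2]
      rw [lintegral_const_mul]
      refine Measurable.lintegral_prod_right'
        (f := fun p : G × G => r x p.1 * q (x + p.2) (p.1 + p.2)) ?_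
      exact (hrx (by fun_prop) (by fun_prop)).mul (hqx (by fun_prop) (by fun_prop))
    simp only [h1]
    have h3 : ∀ x : G, ∫⁻ y, r x y * q x y * H1 μ V Q ∂μ =
        (∫⁻ y, r x y * q x y ∂μ) * H1 μ V Q := by
      intro x
      rw [lintegral_mul_const]
      exact (hrx (by fun_prop) (by fun_prop)).mul (hqx (by fun_prop) (by fun_prop))
    simp only [h3]
    rw [lintegral_mul_const]
    · rfl
    · refine Measurable.lintegral_prod_right' (f := fun p : G × G => r p.1 p.2 * q p.1 p.2) ?_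
      exact (hrx (by fun_prop) (by fun_prop)).mul (hqx (by fun_prop) (by fun_prop))
  have hA : Measurable fun w : G => ∫⁻ g, a w g ∂μ :=
    Measurable.lintegral_prod_right' (f := fun p : G × G => a p.1 p.2) ha
  have t2 : ∫⁻ x, ∫⁻ y, ∫⁻ w, ∫⁻ g, r x y * r x w * a x g ∂μ ∂μ ∂μ ∂μ ≤
      ε * (μ V * μ V) := by
    have h1 : ∀ x y w : G, ∫⁻ g, r x y * r x w * a x g ∂μ =
        r x y * r x w * ∫⁻ g, a x g ∂μ := by
      intro x y w
      rw [lintegral_const_mul]
      exact hax (by fun_prop) (by fun_prop)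
    simp only [h1]
    have h2 : ∀ x y : G, ∫⁻ w, r x y * r x w * ∫⁻ g, a x g ∂μ ∂μ =
        r x y * μ V * ∫⁻ g, a x g ∂μ := by
      intro x y
      rw [lintegral_mul_const, lintegral_const_mul, hcw]
      · exact hrx (by fun_prop) (by fun_prop)
      · exact measurable_const.mul (hrx (by fun_prop) (by fun_prop))
    simp only [h2]
    have h3 : ∀ x : G, ∫⁻ y, r x y * μ V * ∫⁻ g, a x g ∂μ ∂μ =
        μ V * μ V * ∫⁻ g, a x g ∂μ := by
      intro x
      rw [lintegral_mul_const, lintegral_mul_const, hcw]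
      · exact hrx (by fun_prop) (by fun_prop)
      · exact (hrx (by fun_prop) (by fun_prop)).mul measurable_const
    simp only [h3]
    rw [lintegral_const_mul _ hA, mul_comm]
    gcongr
  have t3 : ∫⁻ x, ∫⁻ y, ∫⁻ w, ∫⁻ g, r x y * r x w * a w g ∂μ ∂μ ∂μ ∂μ ≤
      ε * (μ V * μ V) := by
    have h1 : ∀ x y w : G, ∫⁻ g, r x y * r x w * a w g ∂μ =
        r x y * (r x w * ∫⁻ g, a w g ∂μ) := by
      intro x y w
      rw [lintegral_const_mul, mul_assoc]
      exact hax (by fun_prop) (by fun_prop)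
    simp only [h1]
    have hB : Measurable fun p : G × G => r p.1 p.2 * ∫⁻ g, a p.2 g ∂μ :=
      (hrx (by fun_prop) (by fun_prop)).mul (hA.comp measurable_snd)
    have h2 : ∀ x y : G, ∫⁻ w, r x y * (r x w * ∫⁻ g, a w g ∂μ) ∂μ =
        r x y * ∫⁻ w, r x w * ∫⁻ g, a w g ∂μ ∂μ := by
      intro x y
      rw [lintegral_const_mul]
      exact hB.comp (measurable_prodMk_left (x := x))
    simp only [h2]
    have h3 : ∀ x : G, ∫⁻ y, r x y * ∫⁻ w, r x w * ∫⁻ g, a w g ∂μ ∂μ ∂μ =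
        μ V * ∫⁻ w, r x w * ∫⁻ g, a w g ∂μ ∂μ := by
      intro x
      rw [lintegral_mul_const, hcw]
      exact hrx (by fun_prop) (by fun_prop)
    simp only [h3]
    rw [lintegral_const_mul _ (Measurable.lintegral_prod_right' hB),
      lintegral_lintegral_swap hB.aemeasurable]
    have h4 : ∀ w : G, ∫⁻ x, r x w * ∫⁻ g, a w g ∂μ ∂μ = μ V * ∫⁻ g, a w g ∂μ := by
      intro w
      rw [lintegral_mul_const, hcw']
      exact hrx (by fun_prop) (by fun_prop)
    simp only [h4]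
    rw [lintegral_const_mul _ hA, ← mul_assoc, mul_comm]
    gcongr
  rw [t1]
  calc _ ≤ H1 μ V Q * H1 μ V Q + (ε * (μ V * μ V) + ε * (μ V * μ V)) := by gcongr
    _ = _ := by ring


/-- the cyclic triples -/
def Cyc (Q : G → G → Prop) (x y w : G) : Prop :=
  (Q x y ∧ Q y w ∧ Q w x) ∨ (Q y x ∧ Q w y ∧ Q x w)

/-- the mass of the cyclic triples -/
noncomputable def C1 (μ : Measure G) (V : AddSubgroup G) (Q : G → G → Prop) : ℝ≥0∞ :=
  ∫⁻ x, ∫⁻ y, ∫⁻ w, ind (y - x ∈ V) * ind (w - x ∈ V) * ind (Cyc Q x y w) ∂μ ∂μ ∂μ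

theorem ind_and (P R : Prop) : ind (P ∧ R) = ind P * ind R := by
  by_cases h1 : P <;> by_cases h2 : R <;> simp [ind, h1, h2]

theorem mass_le (hV : MeasurableSet (V : Set G)) (hQ : MeasurableSet {p : G × G | Q p.1 p.2})
    (htot : ∀ᵐ x ∂μ, ∀ᵐ y ∂μ, Q x y ∨ Q y x) :
    μ V * μ V ≤ 3 * P1 μ V Q + C1 μ V Q := by
  have hr := measurable_r V hV
  have hq := measurable_q hQ
  have hrx : ∀ {X : Type} [MeasurableSpace X] {f g : X → G}, Measurable f → Measurable g →
      Measurable fun t => ind (g t - f t ∈ V) := fun hf hg => hr.comp (hf.prodMk hg)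
  have hqx : ∀ {X : Type} [MeasurableSpace X] {f g : X → G}, Measurable f → Measurable g →
      Measurable fun t => ind (Q (f t) (g t)) := fun hf hg => hq.comp (hf.prodMk hg)
  have m1 : Measurable fun p : G × G × G => ind (p.2.1 - p.1 ∈ V) * ind (p.2.2 - p.1 ∈ V) *
      (ind (Q p.1 p.2.1) * ind (Q p.1 p.2.2)) :=
    ((hrx (by fun_prop) (by fun_prop)).mul (hrx (by fun_prop) (by fun_prop))).mul
      ((hqx (by fun_prop) (by fun_prop)).mul (hqx (by fun_prop) (by fun_prop)))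
  have m2 : Measurable fun p : G × G × G => ind (p.2.1 - p.1 ∈ V) * ind (p.2.2 - p.1 ∈ V) *
      (ind (Q p.2.1 p.1) * ind (Q p.2.1 p.2.2)) :=
    ((hrx (by fun_prop) (by fun_prop)).mul (hrx (by fun_prop) (by fun_prop))).mul
      ((hqx (by fun_prop) (by fun_prop)).mul (hqx (by fun_prop) (by fun_prop)))
  have m3 : Measurable fun p : G × G × G => ind (p.2.1 - p.1 ∈ V) * ind (p.2.2 - p.1 ∈ V) *
      (ind (Q p.2.2 p.1) * ind (Q p.2.2 p.2.1)) :=
    ((hrx (by fun_prop) (by fun_prop)).mul (hrx (by fun_prop) (by fun_prop))).mul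
      ((hqx (by fun_prop) (by fun_prop)).mul (hqx (by fun_prop) (by fun_prop)))
  have split : ∀ f g : G → G → G → ℝ≥0∞,
      Measurable (fun p : G × G × G => f p.1 p.2.1 p.2.2) →
      ∫⁻ x, ∫⁻ y, ∫⁻ w, (f x y w + g x y w) ∂μ ∂μ ∂μ =
      ∫⁻ x, ∫⁻ y, ∫⁻ w, f x y w ∂μ ∂μ ∂μ + ∫⁻ x, ∫⁻ y, ∫⁻ w, g x y w ∂μ ∂μ ∂μ := by
    intro f g hf
    have k1 : Measurable fun p : G × G => ∫⁻ z, f p.1 p.2 z ∂μ := by
      refine Measurable.lintegral_prod_right'
        (f := fun q : (G × G) × G => f q.1.1 q.1.2 q.2) ?_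
      exact hf.comp (by fun_prop : Measurable fun q : (G × G) × G => (q.1.1, q.1.2, q.2))
    have k2 : Measurable fun x : G => ∫⁻ y, ∫⁻ z, f x y z ∂μ ∂μ :=
      Measurable.lintegral_prod_right' (f := fun q : G × G => ∫⁻ z, f q.1 q.2 z ∂μ) k1
    rw [← lintegral_add_left k2]
    refine lintegral_congr fun x => ?_
    have k1x : Measurable fun y : G => ∫⁻ z, f x y z ∂μ :=
      k1.comp (measurable_prodMk_left (x := x))
    rw [← lintegral_add_left k1x]
    refine lintegral_congr fun y => ?_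
    have k0x : Measurable fun z : G => f x y z :=
      hf.comp (by fun_prop : Measurable fun z : G => (x, y, z))
    rw [← lintegral_add_left k0x]
  have s2 : ∫⁻ x, ∫⁻ y, ∫⁻ w, ind (y - x ∈ V) * ind (w - x ∈ V) *
      (ind (Q y x) * ind (Q y w)) ∂μ ∂μ ∂μ = P1 μ V Q := by
    rw [swap12 m2]
    unfold P1
    refine lintegral_congr fun x => lintegral_congr fun y => lintegral_congr fun w => ?_
    rw [r_mul_comm]
  have s3 : ∫⁻ x, ∫⁻ y, ∫⁻ w, ind (y - x ∈ V) * ind (w - x ∈ V) *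
      (ind (Q w x) * ind (Q w y)) ∂μ ∂μ ∂μ = P1 μ V Q := by
    rw [swap13 m3]
    unfold P1
    refine lintegral_congr fun x => lintegral_congr fun y => lintegral_congr fun w => ?_
    rw [mul_comm (ind (y - w ∈ V)), r_mul_comm, mul_comm (ind (Q x w)),
      mul_comm (ind (w - x ∈ V))]
  have main : ∫⁻ x, ∫⁻ y, ∫⁻ w, ind (y - x ∈ V) * ind (w - x ∈ V) ∂μ ∂μ ∂μ ≤
      ∫⁻ x, ∫⁻ y, ∫⁻ w, (ind (y - x ∈ V) * ind (w - x ∈ V) * (ind (Q x y) * ind (Q x w)) +
        (ind (y - x ∈ V) * ind (w - x ∈ V) * (ind (Q y x) * ind (Q y w)) +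
        (ind (y - x ∈ V) * ind (w - x ∈ V) * (ind (Q w x) * ind (Q w y)) +
        ind (y - x ∈ V) * ind (w - x ∈ V) * ind (Cyc Q x y w)))) ∂μ ∂μ ∂μ := by
    refine lintegral3_mono_ae ?_
    filter_upwards [htot] with x hx
    filter_upwards [hx, htot] with y hxy hy
    filter_upwards [hx, hy] with w hxw hyw
    rw [← mul_add, ← mul_add, ← mul_add]
    conv_lhs => rw [← mul_one (ind (y - x ∈ V) * ind (w - x ∈ V))]
    gcongr
    rw [← ind_and, ← ind_and, ← ind_and]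
    by_cases h1 : Q x y ∧ Q x w
    · rw [ind_of h1]; exact le_self_add
    by_cases h2 : Q y x ∧ Q y w
    · rw [ind_of h2]; exact le_self_add.trans le_add_self
    by_cases h3 : Q w x ∧ Q w y
    · rw [ind_of h3]; exact le_self_add.trans (le_add_self.trans le_add_self)
    have h4 : Cyc Q x y w := by
      unfold Cyc
      tauto
    rw [ind_of h4]
    exact le_add_self.trans (le_add_self.trans le_add_self)
  rw [mass3 hV, split _ _ m1, split _ _ m2, split _ _ m3, s2, s3] at main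
  refine main.trans (le_of_eq ?_)
  change P1 μ V Q + (P1 μ V Q + (P1 μ V Q + C1 μ V Q)) = _
  ring

theorem C1_le (hV : MeasurableSet (V : Set G)) (hQ : MeasurableSet {p : G × G | Q p.1 p.2})
    (htot : ∀ᵐ x ∂μ, ∀ᵐ y ∂μ, Q x y ∨ Q y x)
    (hout : ∀ᵐ x ∂μ, ∀ᵐ y ∂μ, ∀ᵐ w ∂μ, ∀ᵐ z ∂μ, Q z x → Q z y → Q z w → ¬ Cyc Q x y w)
    (hin : ∀ᵐ x ∂μ, ∀ᵐ y ∂μ, ∀ᵐ w ∂μ, ∀ᵐ z ∂μ, Q x z → Q y z → Q w z → ¬ Cyc Q x y w)
    {κ : ℝ≥0∞} (hκ : ∫⁻ x, ∫⁻ y, ∫⁻ z, ind (y - x ∈ V) * ind (¬ (Q z x ↔ Q z y)) ∂μ ∂μ ∂μ ≤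
      κ * μ V) : C1 μ V Q ≤ 2 * κ * (μ V * μ V) := by
  have hr := measurable_r V hV
  have hq := measurable_q hQ
  have hd : MeasurableSet {p : G × G × G | ¬ (Q p.1 p.2.1 ↔ Q p.1 p.2.2)} := by
    have h1 : MeasurableSet {p : G × G × G | Q p.1 p.2.1} :=
      (by fun_prop : Measurable fun p : G × G × G => (p.1, p.2.1)) hQ
    have h2 : MeasurableSet {p : G × G × G | Q p.1 p.2.2} :=
      (by fun_prop : Measurable fun p : G × G × G => (p.1, p.2.2)) hQ
    exact (h1.iff h2).compl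
  have hdm := measurable_ind hd
  have hrx : ∀ {X : Type} [MeasurableSpace X] {f g : X → G}, Measurable f → Measurable g →
      Measurable fun t => ind (g t - f t ∈ V) := fun hf hg => hr.comp (hf.prodMk hg)
  have hdx : ∀ {X : Type} [MeasurableSpace X] {f g h : X → G}, Measurable f → Measurable g →
      Measurable h → Measurable fun t => ind (¬ (Q (f t) (g t) ↔ Q (f t) (h t))) :=
    fun hf hg hh => hdm.comp (hf.prodMk (hg.prodMk hh))
  have e1 : C1 μ V Q = ∫⁻ x, ∫⁻ y, ∫⁻ w, ∫⁻ _, ind (y - x ∈ V) * ind (w - x ∈ V) *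
      ind (Cyc Q x y w) ∂μ ∂μ ∂μ ∂μ := by
    unfold C1
    simp only [lintegral_const, measure_univ, mul_one]
  have e2 : C1 μ V Q ≤ ∫⁻ x, ∫⁻ y, ∫⁻ w, ∫⁻ z, (ind (y - x ∈ V) * ind (w - x ∈ V) *
      ind (¬ (Q z x ↔ Q z y)) + ind (y - x ∈ V) * ind (w - x ∈ V) *
      ind (¬ (Q z x ↔ Q z w))) ∂μ ∂μ ∂μ ∂μ := by
    rw [e1]
    refine lintegral4_mono_ae ?_
    filter_upwards [hout, hin, htot] with x ox ix tx
    filter_upwards [ox, ix, htot] with y oy iy ty
    filter_upwards [oy, iy, htot] with w ow iw tw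
    filter_upwards [ow, iw, tx, ty, tw] with z oz iz txz tyz twz
    rw [← mul_add]
    gcongr
    by_cases h1 : Q z x ↔ Q z y
    · by_cases h2 : Q z x ↔ Q z w
      · have h3 : ¬ Cyc Q x y w := by
          by_cases h4 : Q z x
          · exact oz h4 (h1.1 h4) (h2.1 h4)
          · have h5 : ¬ Q z y := fun h => h4 (h1.2 h)
            have h6 : ¬ Q z w := fun h => h4 (h2.2 h)
            exact iz (txz.resolve_right h4) (tyz.resolve_right h5) (twz.resolve_right h6)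
        rw [ind_not h3]
        exact zero_le
      · rw [ind_of h2]
        exact (ind_le_one _).trans le_add_self
    · rw [ind_of h1]
      exact (ind_le_one _).trans le_self_add
  refine e2.trans ?_
  have hI : ∀ x y w : G, ∫⁻ z, (ind (y - x ∈ V) * ind (w - x ∈ V) *
      ind (¬ (Q z x ↔ Q z y)) + ind (y - x ∈ V) * ind (w - x ∈ V) *
      ind (¬ (Q z x ↔ Q z w))) ∂μ =
      ind (w - x ∈ V) * (∫⁻ z, ind (y - x ∈ V) * ind (¬ (Q z x ↔ Q z y)) ∂μ) +
      ind (y - x ∈ V) * (∫⁻ z, ind (w - x ∈ V) * ind (¬ (Q z x ↔ Q z w)) ∂μ) := by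
    intro x y w
    rw [lintegral_add_left, ← lintegral_const_mul, ← lintegral_const_mul]
    · congr 1
      · refine lintegral_congr fun z => ?_
        ring
      · refine lintegral_congr fun z => ?_
        ring
    · exact measurable_const.mul (hdx measurable_id measurable_const measurable_const)
    · exact measurable_const.mul (hdx measurable_id measurable_const measurable_const)
    · exact measurable_const.mul (hdx measurable_id measurable_const measurable_const)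
  simp only [hI]
  have hJ : Measurable fun p : G × G => ∫⁻ z, ind (p.2 - p.1 ∈ V) *
      ind (¬ (Q z p.1 ↔ Q z p.2)) ∂μ := by
    refine Measurable.lintegral_prod_right' (f := fun q : (G × G) × G =>
      ind (q.1.2 - q.1.1 ∈ V) * ind (¬ (Q q.2 q.1.1 ↔ Q q.2 q.1.2))) ?_
    exact (hrx (by fun_prop) (by fun_prop)).mul (hdx (by fun_prop) (by fun_prop) (by fun_prop))
  set J : G → G → ℝ≥0∞ := fun x y => ∫⁻ z, ind (y - x ∈ V) * ind (¬ (Q z x ↔ Q z y)) ∂μ
    with hJdef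
  have hJx : ∀ x, Measurable (J x) := fun x => hJ.comp (measurable_prodMk_left (x := x))
  have hrx' : ∀ x : G, Measurable fun y => ind (y - x ∈ V) := fun x =>
    hr.comp (measurable_prodMk_left (x := x))
  have h1 : ∀ x y : G, ∫⁻ w, (ind (w - x ∈ V) * J x y + ind (y - x ∈ V) * J x w) ∂μ =
      μ V * J x y + ind (y - x ∈ V) * ∫⁻ w, J x w ∂μ := by
    intro x y
    rw [lintegral_add_left ((hrx' x).mul_const _), lintegral_mul_const _ (hrx' x),
      lintegral_const_mul _ (hJx x), lintegral_r V hV]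
  have h2 : ∀ x : G, ∫⁻ y, (μ V * J x y + ind (y - x ∈ V) * ∫⁻ w, J x w ∂μ) ∂μ =
      2 * (μ V * ∫⁻ w, J x w ∂μ) := by
    intro x
    rw [lintegral_add_left ((hJx x).const_mul _), lintegral_mul_const _ (hrx' x),
      lintegral_const_mul _ (hJx x), lintegral_r V hV]
    ring
  have h3 : ∫⁻ x, ∫⁻ y, ∫⁻ w, (ind (w - x ∈ V) * J x y + ind (y - x ∈ V) * J x w) ∂μ ∂μ ∂μ =
      2 * (μ V * ∫⁻ x, ∫⁻ w, J x w ∂μ ∂μ) := by
    simp only [h1, h2]
    have hm : Measurable fun x => ∫⁻ w, J x w ∂μ :=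
      Measurable.lintegral_prod_right' (f := fun p : G × G => J p.1 p.2) hJ
    rw [lintegral_const_mul _ (hm.const_mul _), lintegral_const_mul _ hm]
  calc _ = 2 * (μ V * ∫⁻ x, ∫⁻ w, J x w ∂μ ∂μ) := h3
    _ ≤ 2 * (μ V * (κ * μ V)) := by gcongr
    _ = _ := by ring

/-- **Core.** There is no measurable tournament which is locally transitive and invariant under
most of the partial translations. -/
theorem core (hV : MeasurableSet (V : Set G)) (hV0 : μ V ≠ 0)
    (hQ : MeasurableSet {p : G × G | Q p.1 p.2})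
    (hact : MeasurableSet {p : G × G | act p.1 p.2})
    (hanti : ∀ᵐ x ∂μ, ∀ᵐ y ∂μ, ¬ (Q x y ∧ Q y x))
    (htot : ∀ᵐ x ∂μ, ∀ᵐ y ∂μ, Q x y ∨ Q y x)
    (hout : ∀ᵐ x ∂μ, ∀ᵐ y ∂μ, ∀ᵐ w ∂μ, ∀ᵐ z ∂μ, Q z x → Q z y → Q z w → ¬ Cyc Q x y w)
    (hin : ∀ᵐ x ∂μ, ∀ᵐ y ∂μ, ∀ᵐ w ∂μ, ∀ᵐ z ∂μ, Q x z → Q y z → Q w z → ¬ Cyc Q x y w)
    (hinv : ∀ᵐ x ∂μ, ∀ᵐ w ∂μ, ∀ᵐ g ∂μ, act x g → act w g → (Q x w ↔ Q (x + g) (w + g)))
    (hε : ∫⁻ x, ∫⁻ g, ind (¬ act x g) ∂μ ∂μ ≤ 1 / 64)
    (hκ : ∫⁻ x, ∫⁻ y, ∫⁻ z, ind (y - x ∈ V) * ind (¬ (Q z x ↔ Q z y)) ∂μ ∂μ ∂μ ≤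
      1 / 32 * μ V) : False := by
  have h1 := mass_le hV hQ htot
  have h2 := P1_le hV hQ hact hinv hε
  have h3 := C1_le hV hQ htot hout hin hκ
  have h4 := H1_le hV hQ hanti
  have h5 : 4 * (H1 μ V Q * H1 μ V Q) ≤ μ V * μ V := by
    calc 4 * (H1 μ V Q * H1 μ V Q) = (2 * H1 μ V Q) * (2 * H1 μ V Q) := by ring
      _ ≤ μ V * μ V := by gcongr
  have hfin : μ V * μ V ≠ ⊤ := ENNReal.mul_ne_top (measure_ne_top _ _) (measure_ne_top _ _)
  have hne : μ V * μ V ≠ 0 := mul_ne_zero hV0 hV0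
  set c := μ V * μ V with hc
  have hH : H1 μ V Q * H1 μ V Q ≠ ⊤ := by
    intro h
    rw [h] at h5
    have : (4 : ℝ≥0∞) * ⊤ = ⊤ := by simp
    rw [this] at h5
    exact hfin (top_le_iff.1 h5)
  have hP : P1 μ V Q ≠ ⊤ := by
    refine ne_top_of_le_ne_top ?_ h2
    exact ENNReal.add_ne_top.2 ⟨hH, ENNReal.mul_ne_top (ENNReal.mul_ne_top (by norm_num)
      (ENNReal.div_ne_top ENNReal.one_ne_top (by norm_num))) hfin⟩
  have hC : C1 μ V Q ≠ ⊤ := by
    refine ne_top_of_le_ne_top ?_ h3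
    exact ENNReal.mul_ne_top (ENNReal.mul_ne_top (by norm_num)
      (ENNReal.div_ne_top ENNReal.one_ne_top (by norm_num))) hfin
  lift c to NNReal using hfin with c' hc'
  lift P1 μ V Q to NNReal using hP with P' hP'
  lift C1 μ V Q to NNReal using hC with C' hC'
  lift (H1 μ V Q * H1 μ V Q) to NNReal using hH with H' hH'
  have e1 : c' ≤ 3 * P' + C' := by exact_mod_cast h1
  have e5 : 4 * H' ≤ c' := by exact_mod_cast h5
  have e2 : 32 * P' ≤ 32 * H' + c' := by
    have : (32 : ℝ≥0∞) * (P' : ℝ≥0∞) ≤ 32 * ((H' : ℝ≥0∞) + 2 * (1 / 64) * c') := by gcongr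
    have h6 : (32 : ℝ≥0∞) * ((H' : ℝ≥0∞) + 2 * (1 / 64) * c') = 32 * H' + c' := by
      have h7 : (32 : ℝ≥0∞) * (2 * (1 / 64)) = 1 := by
        rw [← mul_assoc]
        norm_num
        exact ENNReal.mul_inv_cancel (by norm_num) (by norm_num)
      rw [mul_add, ← mul_assoc, h7, one_mul]
    rw [h6] at this
    exact_mod_cast this
  have e3 : 16 * C' ≤ c' := by
    have : (16 : ℝ≥0∞) * (C' : ℝ≥0∞) ≤ 16 * (2 * (1 / 32) * c') := by gcongr
    have h6 : (16 : ℝ≥0∞) * (2 * (1 / 32) * c') = c' := by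
      have h7 : (16 : ℝ≥0∞) * (2 * (1 / 32)) = 1 := by
        rw [← mul_assoc]
        norm_num
        exact ENNReal.mul_inv_cancel (by norm_num) (by norm_num)
      rw [← mul_assoc, h7, one_mul]
    rw [h6] at this
    exact_mod_cast this
  have e0 : c' ≠ 0 := by exact_mod_cast hne
  have e0' : 0 < (c' : ℝ) := by
    have := pos_iff_ne_zero.2 e0
    exact_mod_cast this
  have r1 : (c' : ℝ) ≤ 3 * P' + C' := by exact_mod_cast e1
  have r2 : 32 * (P' : ℝ) ≤ 32 * H' + c' := by exact_mod_cast e2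
  have r3 : 16 * (C' : ℝ) ≤ c' := by exact_mod_cast e3
  have r5 : 4 * (H' : ℝ) ≤ c' := by exact_mod_cast e5
  linarith

end Core

end Pool.Agent.T6helper6.BT
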