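import Pool.Agent.T6helper6.BT.K
import Pool.Agent.T6helper6.BT.Core

/-!
# The Haar probability measure of the 3-adic integers
-/

set_option autoImplicit false

open MeasureTheory ENNReal Filter Topology

namespace Pool.Agent.T6helper6.BT

noncomputable instance instMS : MeasurableSpace ℤ_[3] := borel _
instance instBS : BorelSpace ℤ_[3] := ⟨rfl⟩

/-- the Haar probability measure -/
noncomputable def mu : Measure ℤ_[3] := Measure.addHaarMeasure (⊤ : TopologicalSpace.PositiveCompacts ℤ_[3])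

instance : IsProbabilityMeasure mu := ⟨by
  have := Measure.addHaarMeasure_self (K₀ := (⊤ : TopologicalSpace.PositiveCompacts ℤ_[3]))
  simpa [mu] using this⟩

instance : Measure.IsAddHaarMeasure mu := by unfold mu; infer_instance

instance : (𝓝[≠] (0 : ℤ_[3])).NeBot := by
  rw [← mem_closure_iff_nhdsWithin_neBot]
  have h : Tendsto (fun n : ℕ => (3 : ℤ_[3]) ^ n) atTop (𝓝 0) := by
    apply tendsto_pow_atTop_nhds_zero_of_norm_lt_one
    have := PadicInt.norm_p (p := 3)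
    norm_num at this ⊢
    rw [this]; norm_num
  refine mem_closure_of_tendsto h (Eventually.of_forall fun n => ?_)
  simp only [Set.mem_compl_iff, Set.mem_singleton_iff]
  exact pow_ne_zero _ (by norm_num)

instance : NullSingletonClass mu := inferInstance

instance : SecondCountableTopology ℤ_[3] := inferInstance
instance : PolishSpace ℤ_[3] := inferInstance
instance : StandardBorelSpace ℤ_[3] := inferInstance

example : MeasurableAdd₂ ℤ_[3] := inferInstance
example : MeasurableNeg ℤ_[3] := inferInstance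
example : mu.InnerRegularCompactLTTop := inferInstance
example : (mu.prod mu).InnerRegularCompactLTTop := inferInstance
example : mu.IsAddLeftInvariant := inferInstance

/-- the ball of radius `r` -/
def ballG (r : ℝ) (hr : 0 ≤ r) : AddSubgroup ℤ_[3] where
  carrier := {v | ‖v‖ ≤ r}
  add_mem' {a b} ha hb := (PadicInt.nonarchimedean a b).trans (max_le ha hb)
  zero_mem' := by simpa using hr
  neg_mem' {a} ha := by simpa using ha

theorem mem_ballG {r : ℝ} {hr : 0 ≤ r} {v : ℤ_[3]} : v ∈ ballG r hr ↔ ‖v‖ ≤ r := Iff.rfl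

theorem measurable_ballG (r : ℝ) (hr : 0 ≤ r) : MeasurableSet (ballG r hr : Set ℤ_[3]) := by
  have : (ballG r hr : Set ℤ_[3]) = {v | ‖v‖ ≤ r} := rfl
  rw [this]
  exact measurableSet_le measurable_norm measurable_const

theorem mu_ballG_pos {r : ℝ} (hr : 0 < r) : mu (ballG r hr.le : Set ℤ_[3]) ≠ 0 := by
  have h1 : Metric.ball (0 : ℤ_[3]) r ⊆ (ballG r hr.le : Set ℤ_[3]) := by
    intro v hv
    rw [mem_ball_zero_iff] at hv
    exact hv.le
  have h2 : 0 < mu (Metric.ball (0 : ℤ_[3]) r) := Metric.isOpen_ball.measure_pos mu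
    ⟨0, Metric.mem_ball_self hr⟩
  exact (h2.trans_le (measure_mono h1)).ne'

/-- Translations by small elements change a measurable relation little. -/
theorem exists_small {Q : ℤ_[3] → ℤ_[3] → Prop} (hQ : MeasurableSet {p : ℤ_[3] × ℤ_[3] | Q p.1 p.2})
    {κ : ℝ≥0∞} (hκ : κ ≠ 0) :
    ∃ (r : ℝ) (hr : 0 < r), ∫⁻ x, ∫⁻ y, ∫⁻ z, ind (y - x ∈ ballG r hr.le) *
      ind (¬ (Q z x ↔ Q z y)) ∂mu ∂mu ∂mu ≤ κ * mu (ballG r hr.le : Set ℤ_[3]) := by
  let F : C(ℤ_[3] × (ℤ_[3] × ℤ_[3]), ℤ_[3] × ℤ_[3]) :=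
    ⟨fun p => (p.2.1, p.2.2 + p.1), by fun_prop⟩
  let f : ℤ_[3] → C(ℤ_[3] × ℤ_[3], ℤ_[3] × ℤ_[3]) := F.curry
  have hf : Tendsto f (𝓝 0) (𝓝 (f 0)) := F.curry.continuous.tendsto 0
  have hmp : ∀ v, MeasurePreserving (f v) (mu.prod mu) (mu.prod mu) := by
    intro v
    exact (MeasurePreserving.id mu).prod (measurePreserving_add_right mu v)
  set S : Set (ℤ_[3] × ℤ_[3]) := {p | Q p.1 p.2} with hS
  have h1 := tendsto_measure_symmDiff_preimage_nhds_zero hf (Eventually.of_forall hmp) (hmp 0)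
    hQ.nullMeasurableSet (measure_ne_top _ _)
  have h2 := (ENNReal.tendsto_nhds_zero.1 h1) κ (pos_iff_ne_zero.2 hκ)
  obtain ⟨r, hr, hr2⟩ := Metric.eventually_nhds_iff.1 h2
  refine ⟨r / 2, by positivity, ?_⟩
  set V := ballG (r / 2) (by positivity : (0:ℝ) < r / 2).le with hV
  have hVm : MeasurableSet (V : Set ℤ_[3]) := measurable_ballG _ _
  have hd : MeasurableSet {p : ℤ_[3] × ℤ_[3] × ℤ_[3] | ¬ (Q p.1 p.2.1 ↔ Q p.1 p.2.2)} := by
    have h1 : MeasurableSet {p : ℤ_[3] × ℤ_[3] × ℤ_[3] | Q p.1 p.2.1} :=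
      (by fun_prop : Measurable fun p : ℤ_[3] × ℤ_[3] × ℤ_[3] => (p.1, p.2.1)) hQ
    have h2 : MeasurableSet {p : ℤ_[3] × ℤ_[3] × ℤ_[3] | Q p.1 p.2.2} :=
      (by fun_prop : Measurable fun p : ℤ_[3] × ℤ_[3] × ℤ_[3] => (p.1, p.2.2)) hQ
    exact (h1.iff h2).compl
  have hdm := measurable_ind hd
  have hVi : Measurable fun v : ℤ_[3] => ind (v ∈ V) := measurable_ind hVm
  -- substitute y = x + v
  have e1 : ∀ x : ℤ_[3], ∫⁻ y, ∫⁻ z, ind (y - x ∈ V) * ind (¬ (Q z x ↔ Q z y)) ∂mu ∂mu =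
      ∫⁻ v, ∫⁻ z, ind (v ∈ V) * ind (¬ (Q z x ↔ Q z (x + v))) ∂mu ∂mu := by
    intro x
    rw [← lintegral_add_left_eq_self (μ := mu)
      (fun y => ∫⁻ z, ind (y - x ∈ V) * ind (¬ (Q z x ↔ Q z y)) ∂mu) x]
    simp only [add_sub_cancel_left]
  simp only [e1]
  have m0 : Measurable fun p : ℤ_[3] × ℤ_[3] × ℤ_[3] =>
      ind (p.2.1 ∈ V) * ind (¬ (Q p.2.2 p.1 ↔ Q p.2.2 (p.1 + p.2.1))) :=
    (hVi.comp (by fun_prop)).mul (hdm.comp (by fun_prop :
      Measurable fun p : ℤ_[3] × ℤ_[3] × ℤ_[3] => (p.2.2, p.1, p.1 + p.2.1)))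
  rw [swap12 (f := fun x v z => ind (v ∈ V) * ind (¬ (Q z x ↔ Q z (x + v)))) m0]
  have e2 : ∀ v : ℤ_[3], ∫⁻ x, ∫⁻ z, ind (v ∈ V) * ind (¬ (Q z x ↔ Q z (x + v))) ∂mu ∂mu =
      ind (v ∈ V) * (mu.prod mu) (symmDiff (f v ⁻¹' S) (f 0 ⁻¹' S)) := by
    intro v
    have k1 : Measurable fun p : ℤ_[3] × ℤ_[3] => ind (¬ (Q p.2 p.1 ↔ Q p.2 (p.1 + v))) :=
      hdm.comp (by fun_prop : Measurable fun p : ℤ_[3] × ℤ_[3] => (p.2, p.1, p.1 + v))
    have k2 : ∀ x : ℤ_[3], ∫⁻ z, ind (v ∈ V) * ind (¬ (Q z x ↔ Q z (x + v))) ∂mu =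
        ind (v ∈ V) * ∫⁻ z, ind (¬ (Q z x ↔ Q z (x + v))) ∂mu := by
      intro x
      rw [lintegral_const_mul]
      exact k1.comp (measurable_prodMk_left (x := x))
    simp only [k2]
    rw [lintegral_const_mul _ (Measurable.lintegral_prod_right' k1)]
    congr 1
    have hms : MeasurableSet (symmDiff (f v ⁻¹' S) (f 0 ⁻¹' S)) :=
      ((hmp v).measurable hQ).symmDiff ((hmp 0).measurable hQ)
    rw [lintegral_lintegral_swap k1.aemeasurable, Measure.prod_apply hms]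
    refine lintegral_congr fun z => ?_
    have k3 : Prod.mk z ⁻¹' (symmDiff (f v ⁻¹' S) (f 0 ⁻¹' S)) =
        {x | ¬ (Q z x ↔ Q z (x + v))} := by
      ext x
      have a1 : (z, x) ∈ f v ⁻¹' S ↔ Q z (x + v) := Iff.rfl
      have a2 : (z, x) ∈ f 0 ⁻¹' S ↔ Q z x := by
        change Q z (x + 0) ↔ _
        rw [add_zero]
      rw [Set.mem_preimage, Set.mem_symmDiff, a1, a2]
      simp only [Set.mem_ofPred_eq]
      tauto
    rw [k3]
    classical
    have k4 : MeasurableSet {x | ¬ (Q z x ↔ Q z (x + v))} := by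
      rw [← k3]; exact measurable_prodMk_left hms
    have k5 : (fun x => ind (¬ (Q z x ↔ Q z (x + v)))) =
        ({x | ¬ (Q z x ↔ Q z (x + v))} : Set ℤ_[3]).indicator (fun _ => 1) := by
      funext x
      by_cases h : ¬ (Q z x ↔ Q z (x + v))
      · rw [ind_of h, Set.indicator_of_mem (by exact h)]
      · rw [ind_not h, Set.indicator_of_notMem (by exact h)]
    rw [k5, lintegral_indicator k4]
    simp
  simp only [e2]
  calc ∫⁻ v, ind (v ∈ V) * (mu.prod mu) (symmDiff (f v ⁻¹' S) (f 0 ⁻¹' S)) ∂mu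
      ≤ ∫⁻ v, ind (v ∈ V) * κ ∂mu := by
        refine lintegral_mono fun v => ?_
        by_cases hv : v ∈ V
        · gcongr
          refine hr2 ?_
          rw [dist_zero_right]
          have : ‖v‖ ≤ r / 2 := hv
          linarith
        · rw [ind_not hv, zero_mul, zero_mul]
    _ = κ * mu V := by
        rw [lintegral_mul_const _ hVi, mul_comm]
        congr 1
        have := lintegral_r (μ := mu) V hVm 0
        simpa using this

end Pool.Agent.T6helper6.BT
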