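import Mathlib

/-!
# Almost everywhere statements on finite powers of a probability space, nested quantifiers
-/

set_option autoImplicit false

open MeasureTheory

namespace Pool.Agent.T6helper6.BT

variable {G : Type} [MeasurableSpace G] {μ : Measure G} [IsProbabilityMeasure μ]

/-- the power of a measure -/
noncomputable abbrev pw (μ : Measure G) (n : ℕ) : Measure (Fin n → G) := Measure.pi fun _ => μ

theorem ae_cons {n : ℕ} {P : (Fin (n + 1) → G) → Prop} (h : ∀ᵐ γ ∂(pw μ (n + 1)), P γ) :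
    ∀ᵐ a ∂μ, ∀ᵐ γ ∂(pw μ n), P (Fin.cons a γ) := by
  have h1 := (measurePreserving_piFinSuccAbove (fun _ : Fin (n + 1) => μ) 0).symm
  have h2 := h1.quasiMeasurePreserving.ae h
  have h3 := Measure.ae_ae_of_ae_prod h2
  refine h3.mono fun a ha => ha.mono fun γ hγ => ?_
  have : (MeasurableEquiv.piFinSuccAbove (fun _ : Fin (n + 1) => G) 0).symm (a, γ) =
      Fin.cons a γ := by
    change Fin.insertNth (α := fun _ : Fin (n + 1) => G) 0 a γ = _
    rw [Fin.insertNth_zero']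
  rw [this] at hγ
  exact hγ

theorem ae_zero {P : (Fin 0 → G) → Prop} (h : ∀ᵐ γ ∂(pw μ 0), P γ) : P ![] := by
  obtain ⟨γ, hγ⟩ := h.exists
  rwa [Subsingleton.elim γ ![]] at hγ

theorem nest5 {P : (Fin 5 → G) → Prop} (h : ∀ᵐ γ ∂(pw μ 5), P γ) :
    ∀ᵐ a ∂μ, ∀ᵐ b ∂μ, ∀ᵐ c ∂μ, ∀ᵐ d ∂μ, ∀ᵐ e ∂μ, P ![a, b, c, d, e] := by
  filter_upwards [ae_cons h] with a ha
  filter_upwards [ae_cons ha] with b hb
  filter_upwards [ae_cons hb] with c hc
  filter_upwards [ae_cons hc] with d hd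
  filter_upwards [ae_cons hd] with e he
  exact ae_zero he

theorem nest6 {P : (Fin 6 → G) → Prop} (h : ∀ᵐ γ ∂(pw μ 6), P γ) :
    ∀ᵐ a ∂μ, ∀ᵐ b ∂μ, ∀ᵐ c ∂μ, ∀ᵐ d ∂μ, ∀ᵐ e ∂μ, ∀ᵐ f ∂μ, P ![a, b, c, d, e, f] := by
  filter_upwards [ae_cons h] with a ha
  filter_upwards [ae_cons ha] with b hb
  filter_upwards [ae_cons hb] with c hc
  filter_upwards [ae_cons hc] with d hd
  filter_upwards [ae_cons hd] with e he
  filter_upwards [ae_cons he] with f hf
  exact ae_zero hf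

theorem ae_perm {n : ℕ} (α : Fin n → Fin n) (hα : Function.Injective α)
    {P : (Fin n → G) → Prop} (h : ∀ᵐ γ ∂(pw μ n), P γ) : ∀ᵐ γ ∂(pw μ n), P (γ ∘ α) := by
  let e : Fin n ≃ Fin n := Equiv.ofBijective α (Finite.injective_iff_bijective.1 hα)
  have h1 := measurePreserving_piCongrLeft (fun _ : Fin n => μ) e.symm
  have h2 := h1.quasiMeasurePreserving.ae h
  refine h2.mono fun γ hγ => ?_
  have : MeasurableEquiv.piCongrLeft (fun _ : Fin n => G) e.symm γ = γ ∘ α := by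
    funext i
    have h3 := MeasurableEquiv.piCongrLeft_apply_apply (β := fun _ : Fin n => G) e.symm γ (e i)
    rw [Equiv.symm_apply_apply] at h3
    exact h3
  rwa [this] at hγ

end Pool.Agent.T6helper6.BT
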