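import Pool.Agent.R130.Theon.Compat2
import Pool.Agent.T6helper6.BT.Haar
import Pool.Agent.T6helper6.BT.Nest
import Pool.Agent.TH751.TheonDefs

/-!
# Generic higher coordinates
-/

set_option autoImplicit false

open MeasureTheory ProbabilityTheory Filter Set
open Pool.Agent.R130.Theon (Idx coin cw trunc trunc_length trunc_eventually_ne TI bits bits_map
  infinitePi_map_injective coin_map_xor measurable_bits)
open Pool.Agent.TH751.Theon (EV pull diag sing NESub)

namespace Pool.Agent.T6helper6.BT

/-- For labels that are pairwise different, the `X`-valued variables attached to the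
finite sets have an absolutely continuous joint law. -/
theorem null_bits {m : ℕ} {X : Type} [MeasurableSpace X] (μ : Measure X) [IsProbabilityMeasure μ]
    (q : (ℕ → Bool) → X) (hq : Measurable q) (hq' : (cw ℕ).map q = μ)
    (u : Fin m → (ℕ → Bool)) (hu : Function.Injective u)
    (E : Set (Idx (Fin m) → X)) (hE : MeasurableSet E)
    (hE0 : Measure.infinitePi (fun _ : Idx (Fin m) => μ) E = 0) :
    cw TI {τ | (fun A : Idx (Fin m) => q (bits τ u A)) ∈ E} = 0 := by
  classical
  let J := Idx (Fin m)
  have hev : ∀ᶠ n in atTop, ∀ i j : Fin m, trunc n (u i) = trunc n (u j) → i = j := by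
    rw [Filter.eventually_all]
    intro i
    rw [Filter.eventually_all]
    intro j
    by_cases hij : i = j
    · exact Eventually.of_forall fun _ _ => hij
    · filter_upwards [trunc_eventually_ne (fun h => hij (hu h))] with n hn h
      exact absurd h hn
  obtain ⟨N, hN⟩ := eventually_atTop.1 hev
  have himg : ∀ n ≥ N, ∀ A A' : J,
      A.1.image (fun i => trunc n (u i)) = A'.1.image (fun i => trunc n (u i)) → A = A' := by
    intro n hn A A' h
    have key : ∀ A A' : J,
        A.1.image (fun i => trunc n (u i)) = A'.1.image (fun i => trunc n (u i)) →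
          A.1 ⊆ A'.1 := by
      intro A A' h i hi
      have h1 : trunc n (u i) ∈ A'.1.image (fun i => trunc n (u i)) := by
        rw [← h]; exact Finset.mem_image_of_mem _ hi
      obtain ⟨j, hj, hij⟩ := Finset.mem_image.1 h1
      have := hN n hn j i hij
      rw [← this]; exact hj
    exact Subtype.ext ((key A A' h).antisymm (key A' A h.symm))
  let enc : J → ℕ := fun A => Encodable.encode A.1
  have henc : Function.Injective enc := fun A B h => Subtype.ext (Encodable.encode_injective h)
  let g : J × ℕ → TI := fun c =>
    if N ≤ c.2 then (c.2, c.1.1.image (fun i => trunc c.2 (u i)))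
    else (c.2, {List.replicate (c.2 + 1 + enc c.1) false})
  have hg : Function.Injective g := by
    rintro ⟨A, n⟩ ⟨A', n'⟩ h
    have h1 : n = n' := by
      have := congrArg Prod.fst h
      simp only [g] at this
      split_ifs at this <;> exact this
    subst h1
    by_cases hn : N ≤ n
    · simp only [g, hn, if_true, Prod.mk.injEq, true_and] at h
      have := himg n hn A A' h
      rw [this]
    · simp only [g, hn, if_false, Prod.mk.injEq, true_and, Finset.singleton_inj] at h
      have := congrArg List.length h
      simp only [List.length_replicate] at this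
      have : enc A = enc A' := by omega
      rw [henc this]
  -- the modified bits
  let b' : (TI → Bool) → (J × ℕ → Bool) := fun τ c => τ (g c)
  have hb'm : Measurable b' := measurable_pi_lambda _ fun _ => measurable_pi_apply _
  have hb' : (cw TI).map b' = cw (J × ℕ) := infinitePi_map_injective coin g hg
  let Q : (J × ℕ → Bool) → (J → X) := fun x A => q (fun n => x (A, n))
  have hQm : Measurable Q := measurable_pi_lambda _ fun A =>
    hq.comp (measurable_pi_lambda _ fun n => measurable_pi_apply _)
  have hQ : (cw (J × ℕ)).map Q = Measure.infinitePi (fun _ : J => μ) := by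
    have h1 : Q = (fun (x : J → (ℕ → Bool)) (A : J) => q (x A)) ∘
        (MeasurableEquiv.curry J ℕ Bool) := rfl
    rw [h1, ← Measure.map_map _ (MeasurableEquiv.measurable _),
      Measure.infinitePi_map_curry (fun _ _ => coin)]
    · have h2 := Measure.infinitePi_map_pi (μ := fun _ : J => cw ℕ) (f := fun _ : J => q)
        (fun _ => hq)
      rw [h2]
      simp only [hq']
    · exact measurable_pi_lambda _ fun A => hq.comp (measurable_pi_apply A)
  let E2 : Set (J × ℕ → Bool) := Q ⁻¹' E
  have hE2 : cw (J × ℕ) E2 = 0 := by
    rw [← Measure.map_apply hQm hE, hQ]; exact hE0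
  let md : (J × Fin N → Bool) → (J × ℕ → Bool) → (J × ℕ → Bool) := fun w x c =>
    xor (x c) (if h : c.2 < N then w (c.1, ⟨c.2, h⟩) else false)
  have hmdm : ∀ w, Measurable (md w) := fun w => measurable_pi_lambda _ fun c =>
    (measurable_of_countable (fun b => xor b (if h : c.2 < N then w (c.1, ⟨c.2, h⟩) else
      false))).comp (measurable_pi_apply c)
  have hmd : ∀ w, (cw (J × ℕ)).map (md w) = cw (J × ℕ) := by
    intro w
    have h2 := Measure.infinitePi_map_pi (μ := fun _ : J × ℕ => coin)
      (f := fun c : J × ℕ => fun b => xor b (if h : c.2 < N then w (c.1, ⟨c.2, h⟩) else false))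
      (fun _ => measurable_of_countable _)
    simp only [coin_map_xor] at h2
    exact h2
  have hE3 : cw (J × ℕ) (⋃ w, md w ⁻¹' E2) = 0 := by
    rw [measure_iUnion_null_iff]
    intro w
    rw [← Measure.map_apply (hmdm w) (hQm hE), hmd w]
    exact hE2
  have hsub : {τ | (fun A : J => q (bits τ u A)) ∈ E} ⊆ b' ⁻¹' (⋃ w, md w ⁻¹' E2) := by
    intro τ hτ
    rw [mem_preimage, mem_iUnion]
    refine ⟨fun c => xor (b' τ (c.1, (c.2 : ℕ))) (bits τ u c.1 (c.2 : ℕ)), ?_⟩
    have : md (fun c => xor (b' τ (c.1, (c.2 : ℕ))) (bits τ u c.1 (c.2 : ℕ))) (b' τ) =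
        fun c => bits τ u c.1 c.2 := by
      funext c
      by_cases hc : c.2 < N
      · simp only [md, hc, dif_pos]
        cases b' τ c <;> simp
      · have hc' : N ≤ c.2 := not_lt.1 hc
        simp only [md, hc, dif_neg, not_false_eq_true, Bool.xor_false, b', g, hc', if_true]
        rfl
    rw [mem_preimage, this]
    exact hτ
  refine measure_mono_null hsub ?_
  have hms : MeasurableSet (⋃ w, md w ⁻¹' E2) :=
    MeasurableSet.iUnion fun w => hmdm w (hQm hE)
  rw [← Measure.map_apply hb'm hms, hb']
  exact hE3

/-- replace the coordinates of the singletons -/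
noncomputable def comb {m : ℕ} (s : Fin m → unitInterval) (h : EV (Fin m)) : EV (Fin m) :=
  fun A => if A.1.card = 1 then s A.2.choose else h A

theorem comb_sing {m : ℕ} (s : Fin m → unitInterval) (h : EV (Fin m)) (i : Fin m) :
    comb s h (sing i) = s i := by
  unfold comb
  rw [if_pos (by simp [sing])]
  congr 1
  have := (sing i).2.choose_spec
  simpa [sing] using this

theorem measurable_comb (m : ℕ) :
    Measurable fun p : (Fin m → unitInterval) × EV (Fin m) => comb p.1 p.2 := by
  refine measurable_pi_iff.2 fun A => ?_
  by_cases hA : A.1.card = 1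
  · simp only [comb, hA, if_true]
    fun_prop
  · simp only [comb, hA, if_false]
    fun_prop

theorem comb_null {m : ℕ} {Z : Set (EV (Fin m))} (hZ : MeasurableSet Z)
    (hZ0 : (volume : Measure (EV (Fin m))) Z = 0) :
    ∀ᵐ s : Fin m → unitInterval, ∀ᵐ h : EV (Fin m), comb s h ∉ Z := by
  classical
  let g : NESub (Fin m) → Fin m ⊕ NESub (Fin m) := fun A =>
    if A.1.card = 1 then Sum.inl A.2.choose else Sum.inr A
  have hg : Function.Injective g := by
    intro A B h
    by_cases hA : A.1.card = 1 <;> by_cases hB : B.1.card = 1
    · simp only [g, hA, hB, if_true, Sum.inl.injEq] at h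
      obtain ⟨a, ha⟩ := Finset.card_eq_one.1 hA
      obtain ⟨b, hb⟩ := Finset.card_eq_one.1 hB
      have h1 := A.2.choose_spec
      have h2 := B.2.choose_spec
      rw [h] at h1
      have h1' : B.2.choose = a := by
        have : B.2.choose ∈ ({a} : Finset (Fin m)) := ha ▸ h1
        simpa using this
      have h2' : B.2.choose = b := by
        have : B.2.choose ∈ ({b} : Finset (Fin m)) := hb ▸ h2
        simpa using this
      apply Subtype.ext
      rw [ha, hb, ← h1', ← h2']
    · simp [g, hA, hB] at h
    · simp [g, hA, hB] at h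
    · simpa [g, hA, hB] using h
  have h1 := infinitePi_map_injective (volume : Measure unitInterval) g hg
  rw [Measure.infinitePi_eq_pi, Measure.infinitePi_eq_pi] at h1
  have hm : Measurable (fun (x : Fin m ⊕ NESub (Fin m) → unitInterval) (A : NESub (Fin m)) =>
      x (g A)) := measurable_pi_lambda _ fun _ => measurable_pi_apply _
  have h2 : ∀ᵐ x : Fin m ⊕ NESub (Fin m) → unitInterval, (fun A => x (g A)) ∉ Z := by
    rw [ae_iff]
    simp only [not_not]
    have h3 : Measure.map (fun (x : Fin m ⊕ NESub (Fin m) → unitInterval) (A : NESub (Fin m)) =>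
      x (g A)) (Measure.pi fun _ => volume) Z = 0 := by rw [h1]; exact hZ0
    rw [Measure.map_apply hm hZ] at h3
    exact h3
  have h4 := (measurePreserving_sumPiEquivProdPi_symm
    (fun _ : Fin m ⊕ NESub (Fin m) => (volume : Measure unitInterval)))
  have h5 := h4.quasiMeasurePreserving.ae h2
  have h6 := Measure.ae_ae_of_ae_prod h5
  filter_upwards [h6] with s hs
  filter_upwards [hs] with h hh
  have : comb s h = fun A => ((MeasurableEquiv.sumPiEquivProdPi
      (fun _ : Fin m ⊕ NESub (Fin m) => unitInterval)).symm (s, h)) (g A) := by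
    funext A
    by_cases hA : A.1.card = 1
    · simp only [comb, hA, if_true, g]
      rfl
    · simp only [comb, hA, if_false, g]
      rfl
  rw [this]
  exact hh

end Pool.Agent.T6helper6.BT
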