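import Pool.Agent.T6helper6.BT.Vert2

/-!
# There is no measurable structure which looks like the structure of the 3-adic integers
-/

set_option autoImplicit false

open MeasureTheory ENNReal

namespace Pool.Agent.T6helper6.BT

variable {Lv : (Fin 6 → ℤ_[3]) → Prop} {Qv : (Fin 5 → ℤ_[3]) → Prop}

/-- the comparison of the error scales of two configurations -/
def Rv (Lv : (Fin 6 → ℤ_[3]) → Prop) (e f : ℤ_[3] × ℤ_[3]) : Prop :=
  Lv ![e.1, e.2, e.1 + e.2, f.1, f.2, f.1 + f.2]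

theorem measurable_Rv (hLm : MeasurableSet {γ | Lv γ}) :
    MeasurableSet {p : (ℤ_[3] × ℤ_[3]) × (ℤ_[3] × ℤ_[3]) | Rv Lv p.1 p.2} := by
  have : Measurable fun p : (ℤ_[3] × ℤ_[3]) × (ℤ_[3] × ℤ_[3]) =>
      ![p.1.1, p.1.2, p.1.1 + p.1.2, p.2.1, p.2.2, p.2.1 + p.2.2] := by
    refine measurable_pi_iff.2 fun i => ?_
    fin_cases i <;> simp <;> fun_prop
  exact this hLm

theorem Rv_tot (hF : Forced Lv Qv) :
    ∀ᵐ e ∂(mu.prod mu), ∀ᵐ f ∂(mu.prod mu), Rv Lv e f ∨ Rv Lv f e := by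
  filter_upwards [ae_exact_prod (l := []) List.nodup_nil] with e he
  filter_upwards [ae_exact_prod he] with f hf
  exact ax_tot hF (nd6 (by simpa using hf))

theorem Rv_trans (hF : Forced Lv Qv) :
    ∀ᵐ e ∂(mu.prod mu), ∀ᵐ f ∂(mu.prod mu), ∀ᵐ h ∂(mu.prod mu),
      Rv Lv f e → Rv Lv e h → Rv Lv f h := by
  filter_upwards [ae_exact_prod (l := []) List.nodup_nil] with e he
  filter_upwards [ae_exact_prod he] with f hf
  filter_upwards [ae_exact_prod hf] with h hh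
  intro h1 h2
  exact ax_trans hF (nd9 (by simpa using hh)) h1 h2

theorem Rv_low (hLm : MeasurableSet {γ | Lv γ}) (hF : Forced Lv Qv) :
    (mu.prod mu) {e | (mu.prod mu) {f | ¬ Rv Lv e f} ≤ (2 ^ 6)⁻¹} ≠ 0 :=
  exists_low (measurable_Rv hLm) (Rv_tot hF) (Rv_trans hF) 6

theorem measurable_low (hLm : MeasurableSet {γ | Lv γ}) :
    MeasurableSet {e | (mu.prod mu) {f | ¬ Rv Lv e f} ≤ (2 ^ 6)⁻¹} := by
  have h1 : MeasurableSet {p : (ℤ_[3] × ℤ_[3]) × (ℤ_[3] × ℤ_[3]) | ¬ Rv Lv p.1 p.2} :=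
    (measurable_Rv hLm).compl
  have h2 := measurable_measure_prodMk_left (ν := mu.prod mu) h1
  exact measurableSet_le h2 measurable_const

theorem vert_false (hLm : MeasurableSet {γ | Lv γ}) (hQm : MeasurableSet {γ | Qv γ})
    (hF : Forced Lv Qv) (pL : ∀ᵐ γ ∂(pw mu 6), Lv γ ↔ Ls γ)
    (pQ : ∀ᵐ γ ∂(pw mu 5), Qv γ ↔ Qs γ) : False := by
  have hnd : ∀ᵐ x₀ ∂mu, ∀ᵐ g₀ ∂mu, [x₀, g₀, x₀ + g₀].Nodup := by
    filter_upwards [ae_notin [0]] with x₀ hx0
    filter_upwards [ae_exact (l := []) List.nodup_nil (by simp) (by simpa using hx0)] with g₀ n1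
    simpa using n1
  have hP : ∀ᵐ x₀ ∂mu, ∀ᵐ g₀ ∂mu, [x₀, g₀, x₀ + g₀].Nodup ∧
      ∀ᵐ x ∂mu, ∀ᵐ y ∂mu, Qv ![x₀, g₀, x₀ + g₀, x, y] ∨ Qv ![x₀, g₀, x₀ + g₀, y, x] := by
    filter_upwards [hnd, nontie hF pL pQ] with x₀ h1 h2
    exact h1.and h2
  obtain ⟨x₀, g₀, hS, n0, htot⟩ := exists_of_pos (measurable_low hLm) (Rv_low hLm hF) hP
  set Q : ℤ_[3] → ℤ_[3] → Prop := fun x y => Qv ![x₀, g₀, x₀ + g₀, x, y] with hQdef
  set act : ℤ_[3] → ℤ_[3] → Prop := fun x g => Lv ![x₀, g₀, x₀ + g₀, x, g, x + g] with hactdef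
  have hQ : MeasurableSet {p : ℤ_[3] × ℤ_[3] | Q p.1 p.2} := by
    have : Measurable fun p : ℤ_[3] × ℤ_[3] => ![x₀, g₀, x₀ + g₀, p.1, p.2] := by
      refine measurable_pi_iff.2 fun i => ?_
      fin_cases i <;> simp <;> fun_prop
    exact this hQm
  have hact : MeasurableSet {p : ℤ_[3] × ℤ_[3] | act p.1 p.2} := by
    have : Measurable fun p : ℤ_[3] × ℤ_[3] => ![x₀, g₀, x₀ + g₀, p.1, p.2, p.1 + p.2] := by
      refine measurable_pi_iff.2 fun i => ?_
      fin_cases i <;> simp <;> fun_prop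
    exact this hLm
  obtain ⟨r, hr, hκ⟩ := exists_small hQ (κ := 1 / 32) (by norm_num)
  refine core (μ := mu) (V := ballG r hr.le) (Q := Q) (act := act) (measurable_ballG r hr.le)
    (mu_ballG_pos hr) hQ hact ?_ htot ?_ ?_ ?_ ?_ hκ
  · filter_upwards [ae_new n0] with x n1
    filter_upwards [ae_new n1.1] with y n2
    exact ax_anti hF (nd5 n2.1)
  · filter_upwards [ae_new n0] with x n1
    filter_upwards [ae_new n1.1] with y n2
    filter_upwards [ae_new n2.1] with w n3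
    filter_upwards [ae_new n3.1] with z n4
    intro h1 h2 h3
    exact ax_out hF (nd7 n4.1) h1 h2 h3
  · filter_upwards [ae_new n0] with x n1
    filter_upwards [ae_new n1.1] with y n2
    filter_upwards [ae_new n2.1] with w n3
    filter_upwards [ae_new n3.1] with z n4
    intro h1 h2 h3
    exact ax_in hF (nd7 n4.1) h1 h2 h3
  · filter_upwards [ae_new n0] with x n1
    filter_upwards [ae_new n1.1] with w n2
    filter_upwards [ae_two (l := [x₀, g₀, x₀ + g₀]) (by simpa using n2.1) n1.2 n2.2] with g n3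
    intro h1 h2
    exact ax_inv hF (nd8 (by simpa using n3)) h1 h2
  · have h1 : ∫⁻ x, ∫⁻ g, ind (¬ act x g) ∂mu ∂mu = (mu.prod mu) {f | ¬ Rv Lv (x₀, g₀) f} := by
      have h2 : MeasurableSet {f : ℤ_[3] × ℤ_[3] | ¬ Rv Lv (x₀, g₀) f} :=
        ((measurable_prodMk_left (x := (x₀, g₀))) (measurable_Rv hLm)).compl
      have h3 := lintegral_ind (mu.prod mu) h2
      rw [← h3, lintegral_prod _ (measurable_ind h2).aemeasurable]
      rfl
    rw [h1]
    refine le_trans hS ?_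
    norm_num

end Pool.Agent.T6helper6.BT
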