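import Pool.Agent.T6helper6.BT.Meas
import Pool.Agent.T6helper6.BT.Vert3
import Pool.Agent.T6helper6.BT.Defs
import Pool.Agent.Helper212.Iso

/-!
# The strong theon without a Borel version
-/

set_option autoImplicit false

open FirstOrder MeasureTheory ProbabilityTheory Filter Set
open Pool.Agent.R130.Theon (cw TI)
open Pool.Agent.TH751.Theon (EV pull diag sing NESub)

namespace Pool.Agent.T6helper6.BT

/-- Two predicate symbols, of arities 6 and 5. -/
inductive Sym : ℕ → Type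
  | L : Sym 6
  | Q : Sym 5

/-- The language with these two symbols. -/
@[reducible] def LQ : FirstOrder.Language.{0, 0} := ⟨fun _ => Empty, Sym⟩

instance : LQ.IsRelational := fun _ => inferInstanceAs (IsEmpty Empty)

instance : Finite (Σ k, LQ.Relations k) := by
  have : Function.Surjective (fun b : Bool => (if b then ⟨6, Sym.L⟩ else ⟨5, Sym.Q⟩ :
      Σ k, LQ.Relations k)) := by
    rintro ⟨k, s⟩
    cases s with
    | L => exact ⟨true, rfl⟩
    | Q => exact ⟨false, rfl⟩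
  exact Finite.of_surjective _ this

instance : IsEmpty (LQ.Relations 0) := ⟨fun s => by cases s⟩

/-- The Euclidean structure which only uses the coordinates of the vertices. -/
noncomputable def Nst (e : ℤ_[3] ≃ᵐ unitInterval) : EStr LQ := fun _ s =>
  match s with
  | Sym.L => {x | Ls (vtx e x)}
  | Sym.Q => {x | Qs (vtx e x)}

theorem vtx_pull (e : ℤ_[3] ≃ᵐ unitInterval) {k m : ℕ} (x : EV (Fin m)) (α : Fin k ↪ Fin m) :
    vtx e (pull α x) = vtx e x ∘ α := by
  funext i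
  have : (⟨(sing i).1.map α, (sing i).2.map⟩ : NESub (Fin m)) = sing (α i) := by
    apply Subtype.ext
    simp [sing]
  change e.symm (x _) = e.symm (x _)
  rw [this]

theorem null_Nst {e : ℤ_[3] ≃ᵐ unitInterval} (he : MeasurePreserving e mu volume) :
    ∀ (k : ℕ) (P : LQ.Relations k), NullMeasurableSet (Nst e k P) volume := by
  intro k P
  cases P with
  | L => exact ((mp_vtx he 6).measurable measurable_Ls).nullMeasurableSet
  | Q => exact null_Qs.preimage (mp_vtx he 5).quasiMeasurePreserving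

theorem vtx_inj (e : ℤ_[3] ≃ᵐ unitInterval) {m : ℕ} {x : EV (Fin m)} (hx : x ∉ diag (Fin m)) :
    Function.Injective (vtx e x) := by
  intro i j hij
  by_contra hne
  exact hx ⟨i, j, hne, e.symm.injective hij⟩

theorem no_borel {e : ℤ_[3] ≃ᵐ unitInterval} (he : MeasurePreserving e mu volume)
    (N' : EStr LQ) (hm : ∀ (k : ℕ) (P : LQ.Relations k), MeasurableSet (N' k P))
    (hd : ∀ (m : ℕ) (x : EV (Fin m)), x ∉ diag (Fin m) → ∃ y : EV (Fin m), y ∉ diag (Fin m) ∧
      ∀ (k : ℕ) (P : LQ.Relations k) (α : Fin k ↪ Fin m), pull α x ∈ N' k P ↔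
        pull α y ∈ Nst e k P)
    (h0 : ∀ (k : ℕ) (P : LQ.Relations k), volume (symmDiff (Nst e k P) (N' k P)) = 0) : False := by
  obtain ⟨q₀, hq₀⟩ := Pool.Agent.Helper212.Sq.exists_mp_equiv (cw ℕ)
  obtain ⟨q, hqm, hq'⟩ : ∃ q : (ℕ → Bool) → unitInterval, Measurable q ∧
    (cw ℕ).map q = volume := ⟨q₀, q₀.measurable, hq₀.map_eq⟩
  set lab : ℤ_[3] → ℕ → Bool := MeasurableSpace.mapNatBool ℤ_[3] with hlab
  have hlabm : Measurable lab := MeasurableSpace.measurable_mapNatBool _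
  have hlabi : Function.Injective lab := MeasurableSpace.injective_mapNatBool _
  have pin : ∀ (k : ℕ) (P : LQ.Relations k), ∀ᵐ τ ∂(cw TI), ∀ᵐ γ ∂(pw mu k),
      (pt e q lab τ γ ∈ N' k P ↔ pt e q lab τ γ ∈ Nst e k P) := by
    intro k P
    set Z := toMeasurable volume (symmDiff (Nst e k P) (N' k P)) with hZ
    have hZ0 : volume Z = 0 := by rw [hZ, measure_toMeasurable, h0]
    have h1 := ae_pt he hqm hq' hlabm hlabi (measurableSet_toMeasurable _ _) hZ0
    filter_upwards [h1] with τ h1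
    filter_upwards [h1] with γ h1
    have h2 : pt e q lab τ γ ∉ symmDiff (Nst e k P) (N' k P) := fun h =>
      h1 (subset_toMeasurable _ _ h)
    rw [Set.mem_symmDiff] at h2
    tauto
  have hvt : ∀ (τ : TI → Bool) {m : ℕ} (γ : Fin m → ℤ_[3]), vtx e (pt e q lab τ γ) = γ := by
    intro τ m γ
    funext i
    change e.symm (pt e q lab τ γ (sing i)) = γ i
    rw [pt_sing, MeasurableEquiv.symm_apply_apply]
  obtain ⟨τ, hL, hQ⟩ := ((pin 6 Sym.L).and (pin 5 Sym.Q)).exists
  refine vert_false (Lv := fun γ => pt e q lab τ γ ∈ N' 6 Sym.L)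
    (Qv := fun γ => pt e q lab τ γ ∈ N' 5 Sym.Q) ?_ ?_ ?_ ?_ ?_
  · exact ((measurable_pt hqm hlabm 6).comp
      (measurable_prodMk_right (y := τ))) (hm 6 Sym.L)
  · exact ((measurable_pt hqm hlabm 5).comp
      (measurable_prodMk_right (y := τ))) (hm 5 Sym.Q)
  · intro m γ hγ
    have hx : pt e q lab τ γ ∉ diag (Fin m) := by
      rintro ⟨i, j, hij, h⟩
      rw [pt_sing, pt_sing] at h
      exact hij (hγ (e.injective h))
    obtain ⟨y, hy, h⟩ := hd m _ hx
    refine ⟨vtx e y, vtx_inj e hy, fun α hα => ?_, fun α hα => ?_⟩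
    · have h2 := h 6 Sym.L ⟨α, hα⟩
      rw [pull_pt] at h2
      have h3 : pull ⟨α, hα⟩ y ∈ Nst e 6 Sym.L ↔ Ls (vtx e (pull ⟨α, hα⟩ y)) := Iff.rfl
      rw [h3, vtx_pull] at h2
      exact h2
    · have h2 := h 5 Sym.Q ⟨α, hα⟩
      rw [pull_pt] at h2
      have h3 : pull ⟨α, hα⟩ y ∈ Nst e 5 Sym.Q ↔ Qs (vtx e (pull ⟨α, hα⟩ y)) := Iff.rfl
      rw [h3, vtx_pull] at h2
      exact h2
  · filter_upwards [hL] with γ hγ
    rw [hγ]
    have h3 : pt e q lab τ γ ∈ Nst e 6 Sym.L ↔ Ls (vtx e (pt e q lab τ γ)) := Iff.rfl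
    rw [h3, hvt]
  · filter_upwards [hQ] with γ hγ
    rw [hγ]
    have h3 : pt e q lab τ γ ∈ Nst e 5 Sym.Q ↔ Qs (vtx e (pt e q lab τ γ)) := Iff.rfl
    rw [h3, hvt]

end Pool.Agent.T6helper6.BT
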