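import Mathlib

/-!
# Cyclic orders on the 3-adic integers, read at a finite or infinite scale
-/

set_option autoImplicit false

open Filter

namespace Pool.Agent.T6helper6.BT

/-- The residue of `d` modulo `3 ^ n` lies strictly between `0` and `3 ^ n / 2`. -/
def Half (n : ℕ) (d : ℤ_[3]) : Prop :=
  0 < (PadicInt.toZModPow n d).val ∧ 2 * (PadicInt.toZModPow n d).val < 3 ^ n

instance neZeroPow (n : ℕ) : NeZero (3 ^ n) := ⟨by positivity⟩

theorem val_sub_of_le {m : ℕ} [NeZero m] {a b : ZMod m} (h : b.val ≤ a.val) :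
    (a - b).val = a.val - b.val := ZMod.val_sub h

theorem half_not_both (n : ℕ) (d : ℤ_[3]) : ¬ (Half n d ∧ Half n (-d)) := by
  rintro ⟨⟨h1, h2⟩, h3, h4⟩
  rw [map_neg] at h3 h4
  have h5 : (PadicInt.toZModPow n d) ≠ 0 := by
    intro h; rw [h, ZMod.val_zero] at h1; exact lt_irrefl _ h1
  have : NeZero (PadicInt.toZModPow n d) := ⟨h5⟩
  rw [ZMod.val_neg_of_ne_zero] at h4
  have := ZMod.val_lt (PadicInt.toZModPow n d)
  omega

theorem half_or {n : ℕ} {d : ℤ_[3]} (h : PadicInt.toZModPow n d ≠ 0) :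
    Half n d ∨ Half n (-d) := by
  unfold Half
  rw [map_neg]
  have : NeZero (PadicInt.toZModPow n d) := ⟨h⟩
  rw [ZMod.val_neg_of_ne_zero]
  have h1 := ZMod.val_lt (PadicInt.toZModPow n d)
  have h2 : 0 < (PadicInt.toZModPow n d).val := by
    rw [Nat.pos_iff_ne_zero]
    intro h0
    exact h ((ZMod.val_eq_zero _).1 h0)
  have h3 : 3 ^ n % 2 = 1 := by
    rw [Nat.pow_mod]; norm_num
  omega

theorem half_of_eq {n : ℕ} {d d' : ℤ_[3]}
    (h : PadicInt.toZModPow n d = PadicInt.toZModPow n d') : Half n d ↔ Half n d' := by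
  unfold Half
  rw [h]

theorem not_half_of_eq_zero {n : ℕ} {d : ℤ_[3]} (h : PadicInt.toZModPow n d = 0) :
    ¬ Half n d := by
  rintro ⟨h1, -⟩
  rw [h, ZMod.val_zero] at h1
  exact lt_irrefl _ h1

theorem lt_of_half_sub {n : ℕ} {a b : ℤ_[3]} (ha : Half n a)
    (h : Half n (b - a)) :
    (PadicInt.toZModPow n a).val < (PadicInt.toZModPow n b).val := by
  by_contra hcon
  push Not at hcon
  rcases hcon.eq_or_lt with h1 | h1
  · have h2 : PadicInt.toZModPow n b = PadicInt.toZModPow n a := ZMod.val_injective _ h1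
    refine not_half_of_eq_zero ?_ h
    rw [map_sub, h2, sub_self]
  · refine half_not_both n (b - a) ⟨h, ?_⟩
    rw [neg_sub]
    unfold Half
    rw [map_sub, ZMod.val_sub hcon]
    have := ha.2
    omega

theorem half_cyc {n : ℕ} {a b c : ℤ_[3]} (ha : Half n a) (hb : Half n b) (hc : Half n c) :
    ¬ (Half n (b - a) ∧ Half n (c - b) ∧ Half n (a - c)) := by
  rintro ⟨h1, h2, h3⟩
  have := lt_of_half_sub ha h1
  have := lt_of_half_sub hb h2
  have := lt_of_half_sub hc h3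
  omega

theorem toZModPow_eq_zero_iff (n : ℕ) (d : ℤ_[3]) :
    PadicInt.toZModPow n d = 0 ↔ ‖d‖ ≤ (3 : ℝ) ^ (-(n : ℤ)) := by
  have h := PadicInt.norm_le_pow_iff_mem_span_pow (p := 3) d n
  rw [← PadicInt.ker_toZModPow, RingHom.mem_ker] at h
  simpa using h.symm

theorem toZModPow_ne_zero_eventually {d : ℤ_[3]} (hd : d ≠ 0) :
    ∀ᶠ n : ℕ in atTop, PadicInt.toZModPow n d ≠ 0 := by
  have h1 : Tendsto (fun n : ℕ => (3 : ℝ) ^ (-(n : ℤ))) atTop (nhds 0) := by
    have := tendsto_pow_atTop_nhds_zero_of_lt_one (r := (3 : ℝ)⁻¹) (by norm_num) (by norm_num)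
    refine this.congr fun n => ?_
    rw [zpow_neg, zpow_natCast, inv_pow]
  filter_upwards [h1.eventually (gt_mem_nhds (norm_pos_iff.2 hd))] with n hn h
  rw [toZModPow_eq_zero_iff] at h
  exact absurd (h.trans_lt hn) (lt_irrefl _)

/-- The relation `Half` read at the scale given by `e`: the scale `n` if `e` has valuation `n`, and
an infinite scale, given by a nonprincipal ultrafilter, if `e = 0`. -/
def K (e d : ℤ_[3]) : Prop :=
  (e = 0 ∧ ∀ᶠ i in (hyperfilter ℕ : Filter ℕ), Half i d) ∨ (e ≠ 0 ∧ Half e.valuation d)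

theorem norm_le_norm_iff {e d : ℤ_[3]} (he : e ≠ 0) :
    ‖d‖ ≤ ‖e‖ ↔ PadicInt.toZModPow e.valuation d = 0 := by
  rw [toZModPow_eq_zero_iff, PadicInt.norm_eq_zpow_neg_valuation he]
  norm_num

theorem K_zero (d : ℤ_[3]) : K 0 d ↔ ∀ᶠ i in (hyperfilter ℕ : Filter ℕ), Half i d := by
  unfold K; simp

theorem K_ne {e : ℤ_[3]} (he : e ≠ 0) (d : ℤ_[3]) : K e d ↔ Half e.valuation d := by
  unfold K; simp [he]

/-- (k1) -/
theorem K_not_both (e d : ℤ_[3]) : ¬ (K e d ∧ K e (-d)) := by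
  rcases eq_or_ne e 0 with rfl | he
  · rw [K_zero, K_zero]
    rintro ⟨h1, h2⟩
    obtain ⟨i, hi⟩ := (h1.and h2).exists
    exact half_not_both i d hi
  · rw [K_ne he, K_ne he]
    exact half_not_both _ d

/-- (k2) -/
theorem K_or_iff (e d : ℤ_[3]) : (K e d ∨ K e (-d)) ↔ ‖e‖ < ‖d‖ := by
  rcases eq_or_ne e 0 with rfl | he
  · rw [K_zero, K_zero, norm_zero, norm_pos_iff]
    constructor
    · rintro (h | h) rfl
      · obtain ⟨i, hi⟩ := h.exists
        exact not_half_of_eq_zero (map_zero _) hi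
      · obtain ⟨i, hi⟩ := h.exists
        exact not_half_of_eq_zero (by rw [neg_zero, map_zero]) hi
    · intro hd
      rw [← Ultrafilter.eventually_or]
      exact ((toZModPow_ne_zero_eventually hd).filter_mono Nat.hyperfilter_le_atTop).mono
        fun n hn => half_or hn
  · rw [K_ne he, K_ne he, ← not_le, norm_le_norm_iff he]
    constructor
    · rintro (h | h) h0
      · exact not_half_of_eq_zero h0 h
      · exact not_half_of_eq_zero (by rw [map_neg, h0, neg_zero]) h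
    · exact half_or

/-- (k3) -/
theorem K_congr {e d d' : ℤ_[3]} (h : ‖d - d'‖ ≤ ‖e‖) : K e d ↔ K e d' := by
  rcases eq_or_ne e 0 with rfl | he
  · rw [norm_zero] at h
    have := sub_eq_zero.1 (norm_le_zero_iff.1 h)
    rw [this]
  · rw [K_ne he, K_ne he]
    rw [norm_le_norm_iff he, map_sub, sub_eq_zero] at h
    exact half_of_eq h

/-- (k4) -/
theorem K_cyc {e a b c : ℤ_[3]} (ha : K e a) (hb : K e b) (hc : K e c) :
    ¬ (K e (b - a) ∧ K e (c - b) ∧ K e (a - c)) := by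
  rcases eq_or_ne e 0 with rfl | he
  · simp only [K_zero] at *
    rintro ⟨h1, h2, h3⟩
    obtain ⟨i, h⟩ := ((ha.and (hb.and hc)).and (h1.and (h2.and h3))).exists
    exact half_cyc h.1.1 h.1.2.1 h.1.2.2 h.2
  · simp only [K_ne he] at *
    exact half_cyc ha hb hc

/-- (k5) -/
theorem K_cyc' {e a b c : ℤ_[3]} (ha : K e (-a)) (hb : K e (-b)) (hc : K e (-c)) :
    ¬ (K e (b - a) ∧ K e (c - b) ∧ K e (a - c)) := by
  rintro ⟨h1, h2, h3⟩
  refine K_cyc ha hc hb ⟨?_, ?_, ?_⟩
  · rwa [show -c - -a = a - c by ring]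
  · rwa [show -b - -c = c - b by ring]
  · rwa [show -a - -b = b - a by ring]

end Pool.Agent.T6helper6.BT
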