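import Pool.Agent.T6helper6.BT.Pt
import Pool.Agent.T6helper6.BT.Axioms

/-!
# Measurability of the structure on the 3-adic integers
-/

set_option autoImplicit false

open MeasureTheory ProbabilityTheory Filter Set
open Pool.Agent.R130.Theon (infinitePi_map_injective)
open Pool.Agent.TH751.Theon (EV pull diag sing NESub)

namespace Pool.Agent.T6helper6.BT

theorem measurable_Half (n : ℕ) : MeasurableSet {d : ℤ_[3] | Half n d} := by
  refine IsOpen.measurableSet (Metric.isOpen_iff.2 fun d hd => ?_)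
  refine ⟨(3 : ℝ) ^ (-(n : ℤ)), by positivity, fun d' hd' => ?_⟩
  rw [mem_ball_iff_norm] at hd'
  have h1 := (toZModPow_eq_zero_iff n (d' - d)).2 hd'.le
  rw [map_sub, sub_eq_zero] at h1
  exact (half_of_eq h1).2 hd

theorem K_iff (e d : ℤ_[3]) : (e ≠ 0 ∧ K e d) ↔ ∃ n : ℕ, ‖e‖ = (3 : ℝ) ^ (-(n : ℤ)) ∧ Half n d := by
  constructor
  · rintro ⟨he, (⟨h, -⟩ | ⟨-, h⟩)⟩
    · exact absurd h he
    · refine ⟨e.valuation, ?_, h⟩
      rw [PadicInt.norm_eq_zpow_neg_valuation he]
      norm_num
  · rintro ⟨n, h1, h2⟩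
    have he : e ≠ 0 := by
      rintro rfl
      rw [norm_zero] at h1
      exact absurd h1 (by positivity)
    refine ⟨he, Or.inr ⟨he, ?_⟩⟩
    have h3 := PadicInt.norm_eq_zpow_neg_valuation he
    rw [h1] at h3
    have h4 : (-(n : ℤ)) = -(e.valuation : ℤ) :=
      zpow_right_injective₀ (a := (3 : ℝ)) (by norm_num) (by norm_num) (by simpa using h3)
    have h5 : n = e.valuation := by omega
    rwa [← h5]

theorem measurable_K : MeasurableSet {p : ℤ_[3] × ℤ_[3] | p.1 ≠ 0 ∧ K p.1 p.2} := by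
  have : {p : ℤ_[3] × ℤ_[3] | p.1 ≠ 0 ∧ K p.1 p.2} =
      ⋃ n : ℕ, ({p | ‖p.1‖ = (3 : ℝ) ^ (-(n : ℤ))} ∩ {p | Half n p.2}) := by
    ext p
    simp only [Set.mem_ofPred_eq, mem_iUnion, mem_inter_iff]
    exact K_iff _ _
  rw [this]
  refine MeasurableSet.iUnion fun n => MeasurableSet.inter ?_ ?_
  · exact measurableSet_eq_fun (measurable_norm.comp measurable_fst) measurable_const
  · exact measurable_snd (measurable_Half n)

theorem ae_uncons {n : ℕ} {P : (Fin (n + 1) → ℤ_[3]) → Prop} (hm : MeasurableSet {γ | P γ})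
    (h : ∀ᵐ a ∂mu, ∀ᵐ γ ∂(pw mu n), P (Fin.cons a γ)) : ∀ᵐ γ ∂(pw mu (n + 1)), P γ := by
  have h1 := measurePreserving_piFinSuccAbove (fun _ : Fin (n + 1) => mu) 0
  let Ψ := MeasurableEquiv.piFinSuccAbove (fun _ : Fin (n + 1) => ℤ_[3]) 0
  have h2 : ∀ᵐ p ∂(mu.prod (pw mu n)), P (Ψ.symm p) := by
    have h3 : MeasurableSet {p | P (Ψ.symm p)} := Ψ.symm.measurable hm
    rw [Measure.ae_prod_iff_ae_ae h3]
    filter_upwards [h] with a ha
    filter_upwards [ha] with γ hγ
    have : Ψ.symm (a, γ) = Fin.cons a γ := by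
      change Fin.insertNth (α := fun _ : Fin (n + 1) => ℤ_[3]) 0 a γ = _
      rw [Fin.insertNth_zero']
    rw [this]; exact hγ
  have h4 := h1.quasiMeasurePreserving.ae h2
  filter_upwards [h4] with γ hγ
  rwa [show Ψ.symm (MeasurableEquiv.piFinSuccAbove (fun _ : Fin (n + 1) => ℤ_[3]) 0 γ) = γ from
    Ψ.symm_apply_apply γ] at hγ

theorem ae_err : ∀ᵐ t ∂(pw mu 5), t 2 - t 0 - t 1 ≠ 0 := by
  have hm : MeasurableSet {t : Fin 5 → ℤ_[3] | t 2 - t 0 - t 1 ≠ 0} := by
    have : Measurable fun t : Fin 5 → ℤ_[3] => t 2 - t 0 - t 1 := by fun_prop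
    exact this (measurableSet_singleton 0).compl
  refine ae_uncons hm (Eventually.of_forall fun a => ?_)
  refine ae_uncons ?_ (Eventually.of_forall fun b => ?_)
  · have : Measurable fun t : Fin 4 → ℤ_[3] => (Fin.cons a t : Fin 5 → ℤ_[3]) := by
      refine measurable_pi_iff.2 fun i => ?_
      refine Fin.cases ?_ (fun j => ?_) i
      · exact measurable_const
      · simp only [Fin.cons_succ]; exact measurable_pi_apply j
    exact this hm
  refine ae_uncons ?_ ?_
  · have : Measurable fun t : Fin 3 → ℤ_[3] =>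
        (Fin.cons a (Fin.cons b t : Fin 4 → ℤ_[3]) : Fin 5 → ℤ_[3]) := by
      refine measurable_pi_iff.2 fun i => ?_
      refine Fin.cases ?_ (fun j => ?_) i
      · exact measurable_const
      · simp only [Fin.cons_succ]
        refine Fin.cases ?_ (fun k => ?_) j
        · exact measurable_const
        · simp only [Fin.cons_succ]; exact measurable_pi_apply k
    exact this hm
  have h1 : ∀ᵐ c ∂mu, c ≠ a + b := by
    rw [ae_iff]
    simp only [not_not, ne_eq]
    exact measure_singleton _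
  filter_upwards [h1] with c hc
  refine Eventually.of_forall fun γ => ?_
  change c - a - b ≠ 0
  intro h
  apply hc
  linear_combination h

theorem null_Qs : NullMeasurableSet {t : Fin 5 → ℤ_[3] | Qs t} (pw mu 5) := by
  have h1 : MeasurableSet {t : Fin 5 → ℤ_[3] | t 2 - t 0 - t 1 ≠ 0 ∧ Qs t} := by
    have : Measurable fun t : Fin 5 → ℤ_[3] => (t 2 - t 0 - t 1, t 4 - t 3) := by fun_prop
    exact this measurable_K
  refine h1.nullMeasurableSet.congr ?_
  filter_upwards [ae_err] with t ht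
  apply propext
  change (t 2 - t 0 - t 1 ≠ 0 ∧ Qs t) ↔ Qs t
  exact ⟨fun h => h.2, fun h => ⟨ht, h⟩⟩

theorem measurable_Ls : MeasurableSet {t : Fin 6 → ℤ_[3] | Ls t} := by
  unfold Ls
  exact measurableSet_le (by fun_prop) (by fun_prop)

/-- the vertices of a point of `𝓔_m` -/
noncomputable def vtx (e : ℤ_[3] ≃ᵐ unitInterval) {m : ℕ} (x : EV (Fin m)) : Fin m → ℤ_[3] :=
  fun i => e.symm (x (sing i))

theorem mp_vtx {e : ℤ_[3] ≃ᵐ unitInterval} (he : MeasurePreserving e mu volume) (m : ℕ) :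
    MeasurePreserving (vtx e : EV (Fin m) → Fin m → ℤ_[3]) volume (pw mu m) := by
  have hs : Function.Injective (sing : Fin m → NESub (Fin m)) := by
    intro i j h
    have := congrArg Subtype.val h
    simpa [sing] using this
  have h1 := infinitePi_map_injective (volume : Measure unitInterval) (sing : Fin m → _) hs
  rw [Measure.infinitePi_eq_pi, Measure.infinitePi_eq_pi] at h1
  have hm : Measurable (fun (x : EV (Fin m)) (i : Fin m) => x (sing i)) :=
    measurable_pi_lambda _ fun _ => measurable_pi_apply _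
  have h2 : MeasurePreserving (fun (x : EV (Fin m)) (i : Fin m) => x (sing i)) volume
    (Measure.pi fun _ => volume) := ⟨hm, h1⟩
  have h3 : MeasurePreserving (fun (s : Fin m → unitInterval) i => e.symm (s i))
      (Measure.pi fun _ => volume) (pw mu m) :=
    measurePreserving_pi (fun _ => (volume : Measure unitInterval)) (fun _ => mu)
      fun _ => he.symm
  exact h3.comp h2

end Pool.Agent.T6helper6.BT
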