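import Pool.Agent.T6helper6.BT.Core

/-!
# A measurable total preorder on a probability space has elements below almost everything
-/

set_option autoImplicit false

open MeasureTheory ENNReal

namespace Pool.Agent.T6helper6.BT

variable {E : Type} [MeasurableSpace E] {ν : Measure E} [IsProbabilityMeasure ν]
  {R : E → E → Prop}

theorem lintegral_ind {X : Type} [MeasurableSpace X] (ρ : Measure X) {P : X → Prop}
    (h : MeasurableSet {x | P x}) : ∫⁻ x, ind (P x) ∂ρ = ρ {x | P x} := by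
  have k5 : (fun x => ind (P x)) = ({x | P x} : Set X).indicator (fun _ => 1) := by
    funext x
    by_cases h : P x
    · rw [ind_of h, Set.indicator_of_mem (by exact h)]
    · rw [ind_not h, Set.indicator_of_notMem (by exact h)]
  rw [k5, lintegral_indicator h]
  simp

theorem preorder_step (hm : MeasurableSet {p : E × E | R p.1 p.2})
    (htot : ∀ᵐ e ∂ν, ∀ᵐ f ∂ν, R e f ∨ R f e)
    (htr : ∀ᵐ e ∂ν, ∀ᵐ f ∂ν, ∀ᵐ h ∂ν, R f e → R e h → R f h) {s : ℝ≥0∞}
    (h : ν {e | ν {f | ¬ R e f} ≤ s} ≠ 0) : ν {e | ν {f | ¬ R e f} ≤ s / 2} ≠ 0 := by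
  intro hB
  have hmc : MeasurableSet {p : E × E | ¬ R p.1 p.2} := hm.compl
  have hsec : ∀ e, MeasurableSet {f | ¬ R e f} := fun e => measurable_prodMk_left hmc
  have hB' : ∀ᵐ e ∂ν, s / 2 < ν {f | ¬ R e f} := by
    rw [ae_iff]
    simpa only [not_lt] using hB
  obtain ⟨e, he1, he2, he3, he4⟩ : ∃ e, ν {f | ¬ R e f} ≤ s ∧ s / 2 < ν {f | ¬ R e f} ∧
      (∀ᵐ f ∂ν, R e f ∨ R f e) ∧ (∀ᵐ f ∂ν, ∀ᵐ h ∂ν, R f e → R e h → R f h) := by
    have h1 : ∃ᵐ e ∂ν, ν {f | ¬ R e f} ≤ s := frequently_ae_iff.2 h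
    obtain ⟨e, h2, h3⟩ := (h1.and_eventually (hB'.and (htot.and htr))).exists
    exact ⟨e, h2, h3.1, h3.2.1, h3.2.2⟩
  set W : Set E := {f | ¬ R e f} with hW
  have hWm : MeasurableSet W := hsec e
  set t := ν W with ht
  have ht0 : t ≠ 0 := by
    intro h0
    rw [h0] at he2
    exact absurd he2 (_root_.not_lt_zero)
  have htf : t ≠ ⊤ := measure_ne_top _ _
  set ν' := ν.restrict W with hν'
  have hI2 : ∫⁻ f, ∫⁻ h, ind (¬ R f h) ∂ν' ∂ν' + ∫⁻ f, ∫⁻ h, ind (¬ R f h) ∂ν' ∂ν' ≤ t * t := by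
    have hsw : ∫⁻ f, ∫⁻ h, ind (¬ R f h) ∂ν' ∂ν' = ∫⁻ f, ∫⁻ h, ind (¬ R h f) ∂ν' ∂ν' :=
      lintegral_lintegral_swap (measurable_ind hmc).aemeasurable
    conv_lhs => enter [2]; rw [hsw]
    have k1 : Measurable fun f => ∫⁻ h, ind (¬ R f h) ∂ν' :=
      Measurable.lintegral_prod_right' (f := fun p : E × E => ind (¬ R p.1 p.2))
        (measurable_ind hmc)
    rw [← lintegral_add_left k1]
    have k2 : ∀ f, ∫⁻ h, ind (¬ R f h) ∂ν' + ∫⁻ h, ind (¬ R h f) ∂ν' =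
        ∫⁻ h, (ind (¬ R f h) + ind (¬ R h f)) ∂ν' := by
      intro f
      rw [lintegral_add_left (measurable_ind (hsec f))]
    simp only [k2]
    have htot' : ∀ᵐ f ∂ν', ∀ᵐ h ∂ν', R f h ∨ R h f :=
      ae_restrict_of_ae (htot.mono fun f hf => ae_restrict_of_ae hf)
    calc ∫⁻ f, ∫⁻ h, (ind (¬ R f h) + ind (¬ R h f)) ∂ν' ∂ν' ≤ ∫⁻ f, ∫⁻ h, 1 ∂ν' ∂ν' := by
          refine lintegral_mono_ae (htot'.mono fun f hf => lintegral_mono_ae (hf.mono fun h hh => ?_))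
          rcases hh with hh | hh
          · rw [ind_not (not_not.2 hh), zero_add]
            exact ind_le_one _
          · rw [ind_not (P := ¬ R h f) (not_not.2 hh), add_zero]
            exact ind_le_one _
      _ = t * t := by simp [hν', ht]
  have hI1 : t / 2 * t < ∫⁻ f, ∫⁻ h, ind (¬ R f h) ∂ν' ∂ν' := by
    have k1 : ∫⁻ _ in W, t / 2 ∂ν = t / 2 * t := by
      rw [setLIntegral_const]
    rw [← k1]
    refine setLIntegral_strict_mono hWm ht0 ?_ ?_ ?_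
    · exact (Measurable.lintegral_prod_right' (f := fun p : E × E => ind (¬ R p.1 p.2))
        (measurable_ind hmc))
    · rw [k1]
      exact ENNReal.mul_ne_top (ENNReal.div_ne_top htf (by norm_num)) htf
    · filter_upwards [hB', he3, he4] with f hf1 hf2 hf3 hfW
      have hfe : R f e := hf2.resolve_left hfW
      calc t / 2 ≤ s / 2 := by gcongr
        _ < ν {h | ¬ R f h} := hf1
        _ ≤ ν' {h | ¬ R f h} := by
            rw [hν', Measure.restrict_apply (hsec f)]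
            refine measure_mono_ae ?_
            filter_upwards [hf3] with h hh hR
            exact ⟨hR, fun h2 => hR (hh hfe h2)⟩
        _ = _ := (lintegral_ind ν' (hsec f)).symm
  have h2 : t / 2 * t + t / 2 * t = t * t := by
    rw [← add_mul, ENNReal.add_halves]
  have h3 : t / 2 * t + t / 2 * t <
      ∫⁻ f, ∫⁻ h, ind (¬ R f h) ∂ν' ∂ν' + ∫⁻ f, ∫⁻ h, ind (¬ R f h) ∂ν' ∂ν' :=
    ENNReal.add_lt_add hI1 hI1
  rw [h2] at h3
  exact absurd (h3.trans_le hI2) (lt_irrefl _)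

theorem exists_low (hm : MeasurableSet {p : E × E | R p.1 p.2})
    (htot : ∀ᵐ e ∂ν, ∀ᵐ f ∂ν, R e f ∨ R f e)
    (htr : ∀ᵐ e ∂ν, ∀ᵐ f ∂ν, ∀ᵐ h ∂ν, R f e → R e h → R f h) (n : ℕ) :
    ν {e | ν {f | ¬ R e f} ≤ (2 ^ n)⁻¹} ≠ 0 := by
  induction n with
  | zero =>
    have : {e | ν {f | ¬ R e f} ≤ (2 ^ 0)⁻¹} = Set.univ := by
      ext e
      simp only [pow_zero, inv_one, Set.mem_ofPred_eq, Set.mem_univ, iff_true]
      exact prob_le_one
    rw [this]
    simp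
  | succ n ih =>
    have h1 := preorder_step hm htot htr ih
    have h2 : ((2 : ℝ≥0∞) ^ n)⁻¹ / 2 = (2 ^ (n + 1))⁻¹ := by
      rw [div_eq_mul_inv, pow_succ, ENNReal.mul_inv]
      · simp
      · simp
    rwa [h2] at h1

end Pool.Agent.T6helper6.BT
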