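import Pool.Agent.T6helper6.BT.Bits

/-!
# Points with generic higher coordinates
-/

set_option autoImplicit false

open MeasureTheory ProbabilityTheory Filter Set
open Pool.Agent.R130.Theon (Idx coin cw trunc trunc_length trunc_eventually_ne TI bits bits_map
  infinitePi_map_injective coin_map_xor measurable_bits)
open Pool.Agent.TH751.Theon (EV pull diag sing NESub)

namespace Pool.Agent.T6helper6.BT

theorem ae_injective (m : ℕ) : ∀ᵐ γ ∂(pw mu m), Function.Injective γ := by
  have key : ∀ i j : Fin m, i ≠ j → ∀ᵐ γ ∂(pw mu m), γ i ≠ γ j := by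
    intro i j hij
    let g : Fin 2 → Fin m := ![i, j]
    have hg : Function.Injective g := by
      intro a b h
      fin_cases a <;> fin_cases b <;> simp_all [g]
    have h1 := infinitePi_map_injective mu g hg
    rw [Measure.infinitePi_eq_pi, Measure.infinitePi_eq_pi] at h1
    have hm : Measurable (fun (x : Fin m → ℤ_[3]) (A : Fin 2) => x (g A)) :=
      measurable_pi_lambda _ fun _ => measurable_pi_apply _
    have h2 : MeasurePreserving (fun (x : Fin m → ℤ_[3]) (A : Fin 2) => x (g A)) (pw mu m)
      (pw mu 2) := ⟨hm, h1⟩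
    have h3 := h2.quasiMeasurePreserving
    have h4 : ∀ᵐ x ∂(pw mu 2), x 0 ≠ x 1 := by
      have h5 : ∀ᵐ p ∂(mu.prod mu), p.1 ≠ p.2 := by
        have h6 : MeasurableSet {p : ℤ_[3] × ℤ_[3] | p.1 ≠ p.2} :=
          (measurableSet_eq_fun measurable_fst measurable_snd).compl
        rw [Measure.ae_prod_iff_ae_ae h6]
        refine Eventually.of_forall fun x => ?_
        have : ∀ᵐ y ∂mu, y ≠ x := by
          rw [ae_iff]
          simp only [not_not, ne_eq]
          exact measure_singleton x
        exact this.mono fun y hy h => hy h.symm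
      have h7 := measurePreserving_finTwoArrow mu
      exact h7.quasiMeasurePreserving.ae h5
    exact h3.ae h4
  have h2 : ∀ᵐ γ ∂(pw mu m), ∀ i j : Fin m, i ≠ j → γ i ≠ γ j := by
    rw [ae_all_iff]; intro i
    rw [ae_all_iff]; intro j
    by_cases h : i = j
    · exact Eventually.of_forall fun _ h' => absurd h h'
    · exact (key i j h).mono fun γ hγ _ => hγ
  filter_upwards [h2] with γ hγ i j hij
  by_contra hne
  exact hγ i j hne hij

variable (e : ℤ_[3] ≃ᵐ unitInterval) (q : (ℕ → Bool) → unitInterval) (lab : ℤ_[3] → ℕ → Bool)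

/-- the point with vertices `γ` and generic higher coordinates -/
noncomputable def pt (τ : TI → Bool) {m : ℕ} (γ : Fin m → ℤ_[3]) : EV (Fin m) :=
  comb (fun i => e (γ i)) (fun A => q (bits τ (fun i => lab (γ i)) A))

theorem pt_sing (τ : TI → Bool) {m : ℕ} (γ : Fin m → ℤ_[3]) (i : Fin m) :
    pt e q lab τ γ (sing i) = e (γ i) := comb_sing _ _ _

theorem pull_pt (τ : TI → Bool) {k m : ℕ} (γ : Fin m → ℤ_[3]) (α : Fin k ↪ Fin m) :
    pull α (pt e q lab τ γ) = pt e q lab τ (γ ∘ α) := by
  funext A
  have hc : (A.1.map α).card = A.1.card := Finset.card_map α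
  unfold pull pt comb
  by_cases hA : A.1.card = 1
  · have hA' : (A.1.map α).card = 1 := by rw [hc]; exact hA
    simp only [hA, hA', if_true, Function.comp]
    congr 2
    obtain ⟨a, ha⟩ := Finset.card_eq_one.1 hA
    have h1 := A.2.choose_spec
    have h1' : A.2.choose = a := by
      have : A.2.choose ∈ ({a} : Finset (Fin k)) := ha ▸ h1
      simpa using this
    have h3 : (A.1.map α).Nonempty := A.2.map
    have h2 := h3.choose_spec
    have h2' : h3.choose = α a := by
      have h4 : A.1.map α = {α a} := by rw [ha, Finset.map_singleton]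
      have : h3.choose ∈ ({α a} : Finset (Fin m)) := h4 ▸ h2
      simpa using this
    rw [h2', h1']
  · have hA' : ¬ (A.1.map α).card = 1 := by rw [hc]; exact hA
    simp only [hA, hA', if_false]
    congr 1
    exact bits_map τ α (fun i => lab (γ i)) A

variable {e q lab}

theorem measurable_pt (hq : Measurable q) (hlab : Measurable lab) (m : ℕ) :
    Measurable fun p : (Fin m → ℤ_[3]) × (TI → Bool) => pt e q lab p.2 p.1 := by
  have h1 : Measurable fun p : (Fin m → ℤ_[3]) × (TI → Bool) =>
      (fun i => e (p.1 i), fun A : NESub (Fin m) => q (bits p.2 (fun i => lab (p.1 i)) A)) := by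
    refine Measurable.prodMk ?_ ?_
    · exact measurable_pi_lambda _ fun i => e.measurable.comp
        ((measurable_pi_apply i).comp measurable_fst)
    · refine measurable_pi_lambda _ fun A => hq.comp ?_
      exact measurable_bits (Ω := Fin m → ℤ_[3]) (V := Fin m) (fun γ i => lab (γ i))
        (fun i n => (measurable_pi_apply n).comp (hlab.comp (measurable_pi_apply i))) A
  exact (measurable_comb m).comp h1

theorem ae_pt (he : MeasurePreserving e mu volume) (hq : Measurable q)
    (hq' : (cw ℕ).map q = volume) (hlab : Measurable lab) (hlab' : Function.Injective lab)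
    {m : ℕ} {Z : Set (EV (Fin m))} (hZ : MeasurableSet Z)
    (hZ0 : (volume : Measure (EV (Fin m))) Z = 0) :
    ∀ᵐ τ ∂(cw TI), ∀ᵐ γ ∂(pw mu m), pt e q lab τ γ ∉ Z := by
  have hS : MeasurableSet {p : (Fin m → ℤ_[3]) × (TI → Bool) | pt e q lab p.2 p.1 ∉ Z} :=
    ((measurable_pt hq hlab m) hZ).compl
  rw [← Measure.ae_ae_comm hS]
  have h1 : MeasurePreserving (fun (γ : Fin m → ℤ_[3]) i => e (γ i)) (pw mu m)
      (volume : Measure (Fin m → unitInterval)) :=
    measurePreserving_pi (fun _ => mu) (fun _ => (volume : Measure unitInterval)) fun _ => he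
  have h2 := h1.quasiMeasurePreserving.ae (comb_null hZ hZ0)
  filter_upwards [h2, ae_injective m] with γ hγ hi
  have hγ' : (volume : Measure (EV (Fin m))) {h | comb (fun i => e (γ i)) h ∈ Z} = 0 := by
    rw [ae_iff] at hγ
    simpa only [not_not] using hγ
  have h3 := null_bits (volume : Measure unitInterval) q hq hq' (fun i => lab (γ i))
    (hlab'.comp hi) {h | comb (fun i => e (γ i)) h ∈ Z}
    (((measurable_comb m).comp (measurable_prodMk_left (x := fun i => e (γ i)))) hZ) (by
      rw [Measure.infinitePi_eq_pi]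
      exact hγ')
  rw [ae_iff]
  simp only [not_not]
  exact h3

end Pool.Agent.T6helper6.BT
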