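import Pool.Agent.T6helper6.BT.Haar
import Pool.Agent.T6helper6.BT.Preorder
import Pool.Agent.T6helper6.BT.Nest
import Pool.Agent.T6helper6.BT.Axioms

/-!
# There is no measurable structure which looks like the structure of the 3-adic integers
-/

set_option autoImplicit false

open MeasureTheory ENNReal

namespace Pool.Agent.T6helper6.BT

/-! ### distinctness -/

theorem ae_notin (l : List ℤ_[3]) : ∀ᵐ x ∂mu, x ∉ l := by
  rw [ae_iff]
  simp only [not_not]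
  exact (List.finite_toSet l).measure_zero mu

theorem ae_add_notin (a : ℤ_[3]) (l : List ℤ_[3]) : ∀ᵐ g ∂mu, a + g ∉ l := by
  filter_upwards [ae_notin (l.map fun v => v - a)] with g hg h
  exact hg (List.mem_map.2 ⟨a + g, h, by ring⟩)

theorem inj_of {n : ℕ} {γ : Fin n → ℤ_[3]} {l : List ℤ_[3]} (h : l.Nodup)
    (e : List.ofFn γ = l) : Function.Injective γ := List.nodup_ofFn.1 (e ▸ h)

theorem nd_snoc {l : List ℤ_[3]} {v : ℤ_[3]} (h : l.Nodup) (hv : v ∉ l) : (l ++ [v]).Nodup := by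
  rw [List.nodup_append]
  refine ⟨h, List.nodup_singleton v, ?_⟩
  intro a ha b hb
  rw [List.mem_singleton] at hb
  rintro rfl
  exact hv (hb ▸ ha)

theorem ae_new {l : List ℤ_[3]} (h : l.Nodup) : ∀ᵐ x ∂mu, (l ++ [x]).Nodup ∧ x ≠ 0 := by
  filter_upwards [ae_notin l, ae_notin [0]] with x h1 h2
  exact ⟨nd_snoc h h1, by simpa using h2⟩

theorem nd_exact {l : List ℤ_[3]} {x g : ℤ_[3]} (h : l.Nodup) (hx : x ∉ l) (hx0 : x ≠ 0)
    (hg : g ∉ l) (hgx : g ≠ x) (hg0 : g ≠ 0) (hxg : x + g ∉ l) : (l ++ [x, g, x + g]).Nodup := by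
  have h1 : (l ++ [x]).Nodup := nd_snoc h hx
  have h2 : ((l ++ [x]) ++ [g]).Nodup := nd_snoc h1 (by simp [hg, hgx])
  have h3 : (((l ++ [x]) ++ [g]) ++ [x + g]).Nodup := nd_snoc h2 (by simp [hxg, hg0, hx0])
  simpa using h3

theorem ae_exact {l : List ℤ_[3]} {x : ℤ_[3]} (h : l.Nodup) (hx : x ∉ l) (hx0 : x ≠ 0) :
    ∀ᵐ g ∂mu, (l ++ [x, g, x + g]).Nodup := by
  filter_upwards [ae_notin l, ae_notin [x, 0], ae_add_notin x l] with g h1 h2 h3
  simp only [List.mem_cons, List.not_mem_nil, or_false, not_or] at h2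
  exact nd_exact h hx hx0 h1 h2.1 h2.2 h3

theorem ae_two {l : List ℤ_[3]} {x w : ℤ_[3]} (h : (l ++ [x, w]).Nodup) (hx0 : x ≠ 0)
    (hw0 : w ≠ 0) : ∀ᵐ g ∂mu, (l ++ [x, w, g, x + g, w + g]).Nodup := by
  filter_upwards [ae_notin (l ++ [x, w]), ae_notin [0], ae_add_notin x (l ++ [w]),
    ae_add_notin w (l ++ [x])] with g h1 h2 h3 h4
  simp only [List.mem_append, List.mem_cons, List.not_mem_nil, or_false, not_or] at h1 h2 h3 h4
  have hxw : w ≠ x := by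
    have h5 := (List.nodup_append.1 h).2.1
    simp only [List.nodup_cons, List.mem_cons, List.not_mem_nil, or_false] at h5
    exact fun h6 => h5.1 h6.symm
  have k1 : ((l ++ [x, w]) ++ [g]).Nodup := nd_snoc h (by simp [h1])
  have k2 : (((l ++ [x, w]) ++ [g]) ++ [x + g]).Nodup := nd_snoc k1 (by simp [h3, h2, hx0])
  have k3 : ((((l ++ [x, w]) ++ [g]) ++ [x + g]) ++ [w + g]).Nodup :=
    nd_snoc k2 (by simp [h4, h2, hw0, hxw])
  simpa using k3

theorem ae_prod_of {P : ℤ_[3] × ℤ_[3] → Prop} (hm : MeasurableSet {p | P p})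
    (h : ∀ᵐ x ∂mu, ∀ᵐ g ∂mu, P (x, g)) : ∀ᵐ p ∂(mu.prod mu), P p :=
  (Measure.ae_prod_iff_ae_ae hm).2 h

theorem ae_exact_prod {l : List ℤ_[3]} (h : l.Nodup) :
    ∀ᵐ f ∂(mu.prod mu), (l ++ [f.1, f.2, f.1 + f.2]).Nodup := by
  have hl : MeasurableSet {x : ℤ_[3] | x ∉ l} := (List.finite_toSet l).measurableSet.compl
  have h0 : MeasurableSet {x : ℤ_[3] | x ≠ 0} := (measurableSet_singleton 0).compl
  have a1 : ∀ᵐ f ∂(mu.prod mu), f.1 ∉ l := ae_prod_of (P := fun f => f.1 ∉ l) (measurable_fst hl)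
    ((ae_notin l).mono fun x hx => Filter.Eventually.of_forall fun _ => hx)
  have a2 : ∀ᵐ f ∂(mu.prod mu), f.1 ≠ 0 := ae_prod_of (P := fun f => f.1 ≠ 0)
    (measurable_fst h0) ((ae_notin [0]).mono fun x hx => Filter.Eventually.of_forall fun _ => by
      simpa using hx)
  have a3 : ∀ᵐ f ∂(mu.prod mu), f.2 ∉ l := ae_prod_of (P := fun f => f.2 ∉ l) (measurable_snd hl)
    (Filter.Eventually.of_forall fun x => ae_notin l)
  have a4 : ∀ᵐ f ∂(mu.prod mu), f.2 ≠ f.1 := ae_prod_of (P := fun f => f.2 ≠ f.1)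
    (measurableSet_eq_fun measurable_snd measurable_fst).compl
    (Filter.Eventually.of_forall fun x => (ae_notin [x]).mono fun g hg => by simpa using hg)
  have a5 : ∀ᵐ f ∂(mu.prod mu), f.2 ≠ 0 := ae_prod_of (P := fun f => f.2 ≠ 0)
    (measurable_snd h0) (Filter.Eventually.of_forall fun x => (ae_notin [0]).mono fun g hg => by
      simpa using hg)
  have a6 : ∀ᵐ f ∂(mu.prod mu), f.1 + f.2 ∉ l := ae_prod_of (P := fun f => f.1 + f.2 ∉ l)
    ((measurable_fst.add measurable_snd) hl) (Filter.Eventually.of_forall fun x => ae_add_notin x l)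
  filter_upwards [a1, a2, a3, a4, a5, a6] with f b1 b2 b3 b4 b5 b6
  exact nd_exact h b1 b2 b3 b4 b5 b6

theorem exists_of_pos {S : Set (ℤ_[3] × ℤ_[3])} (hS : MeasurableSet S) (h0 : (mu.prod mu) S ≠ 0)
    {P : ℤ_[3] → ℤ_[3] → Prop} (h : ∀ᵐ x ∂mu, ∀ᵐ g ∂mu, P x g) :
    ∃ x g, (x, g) ∈ S ∧ P x g := by
  by_contra hcon
  push Not at hcon
  apply h0
  rw [Measure.measure_prod_null hS]
  filter_upwards [h] with x hx
  have h1 : ∀ᵐ g ∂mu, (x, g) ∉ S := hx.mono fun g hg hS => hcon x g hS hg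
  rw [ae_iff] at h1
  have h2 : Prod.mk x ⁻¹' S = {g | ¬ (x, g) ∉ S} := by
    ext g; simp
  rw [h2]
  exact h1

theorem ball_pos (a : ℤ_[3]) {r : ℝ} (hr : 0 < r) : mu {w | ‖w - a‖ ≤ r} ≠ 0 := by
  have h1 : Metric.ball a r ⊆ {w | ‖w - a‖ ≤ r} := by
    intro v hv
    rw [mem_ball_iff_norm] at hv
    exact hv.le
  have h2 : 0 < mu (Metric.ball a r) := Metric.isOpen_ball.measure_pos mu
    ⟨a, Metric.mem_ball_self hr⟩
  exact (h2.trans_le (measure_mono h1)).ne'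

theorem exists_in_ball (a : ℤ_[3]) {r : ℝ} (hr : 0 < r) {P : ℤ_[3] → Prop}
    (h : ∀ᵐ w ∂mu, P w) : ∃ w, ‖w - a‖ ≤ r ∧ P w := by
  have h1 : ∃ᵐ w ∂mu, ‖w - a‖ ≤ r := frequently_ae_iff.2 (ball_pos a hr)
  exact (h1.and_eventually h).exists

theorem ae_shift {P : ℤ_[3] → Prop} (h : ∀ᵐ y ∂mu, P y) (x : ℤ_[3]) : ∀ᵐ g ∂mu, P (x + g) :=
  (measurePreserving_add_left mu x).quasiMeasurePreserving.ae h

end Pool.Agent.T6helper6.BT
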