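import Pool.Agent.T6helper6.BT.Vert

/-!
# There is no measurable structure which looks like the structure of the 3-adic integers
-/

set_option autoImplicit false

open MeasureTheory ENNReal

namespace Pool.Agent.T6helper6.BT

variable {Lv : (Fin 6 → ℤ_[3]) → Prop} {Qv : (Fin 5 → ℤ_[3]) → Prop}

theorem nd6 {a b c d e f : ℤ_[3]} (h : [a, b, c, d, e, f].Nodup) :
    Function.Injective ![a, b, c, d, e, f] := inj_of h (by simp [List.ofFn_succ])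

theorem nd7 {a b c d e f g : ℤ_[3]} (h : [a, b, c, d, e, f, g].Nodup) :
    Function.Injective ![a, b, c, d, e, f, g] := inj_of h (by simp [List.ofFn_succ])

theorem nd5 {a b c d e : ℤ_[3]} (h : [a, b, c, d, e].Nodup) :
    Function.Injective ![a, b, c, d, e] := inj_of h (by simp [List.ofFn_succ])

theorem nd8 {a b c d e f g i : ℤ_[3]} (h : [a, b, c, d, e, f, g, i].Nodup) :
    Function.Injective ![a, b, c, d, e, f, g, i] := inj_of h (by simp [List.ofFn_succ])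

theorem nd9 {a b c d e f g i j : ℤ_[3]} (h : [a, b, c, d, e, f, g, i, j].Nodup) :
    Function.Injective ![a, b, c, d, e, f, g, i, j] := inj_of h (by simp [List.ofFn_succ])

/-- the pinned axioms for `L` -/
theorem pinL (pL : ∀ᵐ γ ∂(pw mu 6), Lv γ ↔ Ls γ) :
    ∀ᵐ x₀ ∂mu, ∀ᵐ g₀ ∂mu, ∀ᵐ f₁ ∂mu, ∀ᵐ f₂ ∂mu, ∀ᵐ f₃ ∂mu, ∀ᵐ w ∂mu,
      (Lv ![f₁, f₂, f₃, x₀, g₀, w] ↔ ‖w - x₀ - g₀‖ ≤ ‖f₃ - f₁ - f₂‖) := by
  have h1 := nest6 (ae_perm ![2, 3, 4, 0, 1, 5] (by decide) pL)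
  filter_upwards [h1] with x₀ h1
  filter_upwards [h1] with g₀ h1
  filter_upwards [h1] with f₁ h1
  filter_upwards [h1] with f₂ h1
  filter_upwards [h1] with f₃ h1
  filter_upwards [h1] with w h1
  have h2 : ![x₀, g₀, f₁, f₂, f₃, w] ∘ ![2, 3, 4, 0, 1, 5] = ![f₁, f₂, f₃, x₀, g₀, w] := by
    funext i; fin_cases i <;> rfl
  rw [h2] at h1
  exact h1

/-- the pinned axioms for `Q` -/
theorem pinQ (pQ : ∀ᵐ γ ∂(pw mu 5), Qv γ ↔ Qs γ) :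
    ∀ᵐ y ∂mu, ∀ᵐ f₁ ∂mu, ∀ᵐ f₂ ∂mu, ∀ᵐ f₃ ∂mu, ∀ᵐ w ∂mu,
      ((Qv ![f₁, f₂, f₃, w, y] ∨ Qv ![f₁, f₂, f₃, y, w]) ↔ ‖f₃ - f₁ - f₂‖ < ‖w - y‖) := by
  have h1 := nest5 (ae_perm ![1, 2, 3, 4, 0] (by decide) pQ)
  have h2 := nest5 (ae_perm ![1, 2, 3, 0, 4] (by decide) pQ)
  filter_upwards [h1, h2] with y h1 h2
  filter_upwards [h1, h2] with f₁ h1 h2
  filter_upwards [h1, h2] with f₂ h1 h2
  filter_upwards [h1, h2] with f₃ h1 h2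
  filter_upwards [h1, h2] with w h1 h2
  have e1 : ![y, f₁, f₂, f₃, w] ∘ ![1, 2, 3, 4, 0] = ![f₁, f₂, f₃, w, y] := by
    funext i; fin_cases i <;> rfl
  have e2 : ![y, f₁, f₂, f₃, w] ∘ ![1, 2, 3, 0, 4] = ![f₁, f₂, f₃, y, w] := by
    funext i; fin_cases i <;> rfl
  rw [e1] at h1
  rw [e2] at h2
  have h3 : (Qv ![f₁, f₂, f₃, w, y] ∨ Qv ![f₁, f₂, f₃, y, w]) ↔
      (K (f₃ - f₁ - f₂) (w - y) ∨ K (f₃ - f₁ - f₂) (-(w - y))) := by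
    rw [neg_sub, h1, h2, or_comm]
    exact Iff.rfl
  rw [h3, K_or_iff]

theorem low1 (hF : Forced Lv Qv) (pL : ∀ᵐ γ ∂(pw mu 6), Lv γ ↔ Ls γ)
    (pQ : ∀ᵐ γ ∂(pw mu 5), Qv γ ↔ Qs γ) :
    ∀ᵐ x₀ ∂mu, ∀ᵐ g₀ ∂mu, ∀ᵐ f₁ ∂mu, ∀ᵐ f₂ ∂mu, ∀ᵐ f₃ ∂mu,
      Lv ![f₁, f₂, f₃, x₀, g₀, x₀ + g₀] := by
  have hQ := pinQ pQ
  filter_upwards [pinL pL, ae_notin [0]] with x₀ h1 hx0
  filter_upwards [h1, ae_shift hQ x₀, ae_exact (l := []) List.nodup_nil (by simp)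
    (by simpa using hx0)] with g₀ h1 h2 n1
  have n1 : [x₀, g₀, x₀ + g₀].Nodup := by simpa using n1
  filter_upwards [h1, h2, ae_new n1] with f₁ h1 h2 n2
  filter_upwards [h1, h2, ae_new n2.1] with f₂ h1 h2 n3
  filter_upwards [h1, h2, ae_new n3.1, ae_notin [f₁ + f₂]] with f₃ h1 h2 n4 n5
  have hr : 0 < ‖f₃ - f₁ - f₂‖ := by
    rw [norm_pos_iff]
    intro h
    apply n5
    rw [List.mem_singleton]
    linear_combination h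
  obtain ⟨w, hw, h1, h2, n6⟩ := exists_in_ball (x₀ + g₀) hr (h1.and (h2.and (ae_new n4.1)))
  have k1 : Lv ![f₁, f₂, f₃, x₀, g₀, w] := by
    rw [h1]
    have : w - x₀ - g₀ = w - (x₀ + g₀) := by ring
    rw [this]; exact hw
  have k2 : ¬ (Qv ![f₁, f₂, f₃, w, x₀ + g₀] ∨ Qv ![f₁, f₂, f₃, x₀ + g₀, w]) := by
    rw [h2]
    exact not_lt.2 hw
  have nd : Function.Injective ![f₁, f₂, f₃, x₀, g₀, w, x₀ + g₀] := by
    have h3 := (nd7 n6.1).comp (by decide : Function.Injective (![3, 4, 5, 0, 1, 6, 2] :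
      Fin 7 → Fin 7))
    have h4 : ![x₀, g₀, x₀ + g₀, f₁, f₂, f₃, w] ∘ ![3, 4, 5, 0, 1, 6, 2] =
        ![f₁, f₂, f₃, x₀, g₀, w, x₀ + g₀] := by
      funext i; fin_cases i <;> rfl
    rwa [h4] at h3
  exact ax_force1 hF nd k1 k2

/-- the pinned axioms for `Q`, in a different order -/
theorem pinQ' (pQ : ∀ᵐ γ ∂(pw mu 5), Qv γ ↔ Qs γ) :
    ∀ᵐ x ∂mu, ∀ᵐ y ∂mu, ∀ᵐ f₁ ∂mu, ∀ᵐ f₂ ∂mu, ∀ᵐ f₃ ∂mu,
      ((Qv ![f₁, f₂, f₃, x, y] ∨ Qv ![f₁, f₂, f₃, y, x]) ↔ ‖f₃ - f₁ - f₂‖ < ‖x - y‖) := by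
  have h1 := nest5 (ae_perm ![2, 3, 4, 0, 1] (by decide) pQ)
  have h2 := nest5 (ae_perm ![2, 3, 4, 1, 0] (by decide) pQ)
  filter_upwards [h1, h2] with x h1 h2
  filter_upwards [h1, h2] with y h1 h2
  filter_upwards [h1, h2] with f₁ h1 h2
  filter_upwards [h1, h2] with f₂ h1 h2
  filter_upwards [h1, h2] with f₃ h1 h2
  have e1 : ![x, y, f₁, f₂, f₃] ∘ ![2, 3, 4, 0, 1] = ![f₁, f₂, f₃, x, y] := by
    funext i; fin_cases i <;> rfl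
  have e2 : ![x, y, f₁, f₂, f₃] ∘ ![2, 3, 4, 1, 0] = ![f₁, f₂, f₃, y, x] := by
    funext i; fin_cases i <;> rfl
  rw [e1] at h1
  rw [e2] at h2
  have h3 : (Qv ![f₁, f₂, f₃, x, y] ∨ Qv ![f₁, f₂, f₃, y, x]) ↔
      (K (f₃ - f₁ - f₂) (x - y) ∨ K (f₃ - f₁ - f₂) (-(x - y))) := by
    rw [neg_sub, h1, h2, or_comm]
    exact Iff.rfl
  rw [h3, K_or_iff]

theorem nontie (hF : Forced Lv Qv) (pL : ∀ᵐ γ ∂(pw mu 6), Lv γ ↔ Ls γ)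
    (pQ : ∀ᵐ γ ∂(pw mu 5), Qv γ ↔ Qs γ) :
    ∀ᵐ x₀ ∂mu, ∀ᵐ g₀ ∂mu, ∀ᵐ x ∂mu, ∀ᵐ y ∂mu,
      Qv ![x₀, g₀, x₀ + g₀, x, y] ∨ Qv ![x₀, g₀, x₀ + g₀, y, x] := by
  have hQ := pinQ' pQ
  filter_upwards [low1 hF pL pQ, ae_notin [0]] with x₀ h1 hx0
  filter_upwards [h1, ae_exact (l := []) List.nodup_nil (by simp)
    (by simpa using hx0)] with g₀ h1 n1
  have n1 : [x₀, g₀, x₀ + g₀].Nodup := by simpa using n1
  filter_upwards [hQ, ae_new n1] with x h2 n2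
  filter_upwards [h2, ae_new n2.1] with y h2 n3
  have hxy : x ≠ y := by
    have := n3.1
    simp only [List.cons_append, List.nil_append, List.nodup_cons,
      List.mem_cons, List.not_mem_nil, or_false, not_or, List.nodup_nil, and_true] at this
    tauto
  have hr : 0 < ‖x - y‖ := norm_pos_iff.2 (sub_ne_zero.2 hxy)
  obtain ⟨f₁, h1, h2, n4⟩ := (h1.and (h2.and (ae_new n3.1))).exists
  obtain ⟨f₂, h1, h2, n5⟩ := (h1.and (h2.and (ae_new n4.1))).exists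
  obtain ⟨f₃, hf, h1, h2, n6⟩ := exists_in_ball (f₁ + f₂) (half_pos hr)
    (h1.and (h2.and (ae_new n5.1)))
  have hf' : ‖f₃ - f₁ - f₂‖ < ‖x - y‖ := by
    have : f₃ - f₁ - f₂ = f₃ - (f₁ + f₂) := by ring
    rw [this]
    linarith
  have k2 : Qv ![f₁, f₂, f₃, x, y] ∨ Qv ![f₁, f₂, f₃, y, x] := h2.2 hf'
  have nd : Function.Injective ![f₁, f₂, f₃, x₀, g₀, x₀ + g₀, x, y] := by
    have h3 := (nd8 n6.1).comp (by decide : Function.Injective (![5, 6, 7, 0, 1, 2, 3, 4] :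
      Fin 8 → Fin 8))
    have h4 : ![x₀, g₀, x₀ + g₀, x, y, f₁, f₂, f₃] ∘ ![5, 6, 7, 0, 1, 2, 3, 4] =
        ![f₁, f₂, f₃, x₀, g₀, x₀ + g₀, x, y] := by
      funext i; fin_cases i <;> rfl
    rwa [h4] at h3
  exact ax_force2 hF nd h1 k2

end Pool.Agent.T6helper6.BT
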